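import Pool.Agent.Run7.h985.TC.Stm

/-!
# Descent: a tower whose limit is a direct summand of one of its stages
-/

set_option autoImplicit false
set_option linter.unusedSectionVars false
set_option linter.unusedSimpArgs false
set_option backward.isDefEq.respectTransparency false
set_option backward.defeqAttrib.useBackward true

open CategoryTheory Limits MonoidalCategory Pretriangulated Triangulated

namespace Run7.h985.TC

open Pool.Agent.Y116.MT Pool.Agent.V1178.MT Run7.h822.MT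

universe v u w

section

variable {C : Type u} [Category.{v} C] [Preadditive C] [HasZeroObject C] [HasShift C ℤ]
  [∀ n : ℤ, (shiftFunctor C n).Additive] [Pretriangulated C] [MonoidalCategory C]
  [SymmetricCategory C] [TensorTriangulated C] [MonoidalPreadditive C]

/-- No maps from `A` to `M⟦-k⟧` for `k ≥ j`. -/
def Zm (M : C) (j : ℤ) (A : C) : Prop := ∀ k : ℤ, j ≤ k → ∀ g : A ⟶ M⟦-k⟧, g = 0

lemma Zm.mono {M : C} {i j : ℤ} (h : i ≤ j) {A : C} (hA : Zm M i A) : Zm M j A :=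
  fun k hk g => hA k (h.trans hk) g

lemma Zm.iso {M : C} {j : ℤ} {A B : C} (e : A ≅ B) (hA : Zm M j A) : Zm M j B := by
  intro k hk g
  rw [← cancel_epi e.hom, hA k hk (e.hom ≫ g), comp_zero]

lemma Zm.shift {M : C} {j : ℤ} {A : C} (hA : Zm M (j + 1) A) : Zm M j (A⟦(1 : ℤ)⟧) := by
  intro k hk g
  let e : M⟦-k⟧ ≅ (M⟦-(k + 1)⟧)⟦(1 : ℤ)⟧ := (shiftFunctorAdd' C (-(k + 1)) 1 (-k) (by omega)).app M
  obtain ⟨l, hl⟩ := (shiftFunctor C (1 : ℤ)).map_surjective (g ≫ e.hom)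
  rw [← cancel_mono e.hom, ← hl, hA (k + 1) (by omega) l, Functor.map_zero, zero_comp]

lemma Zm.zero {M : C} {A : C} (hA : Zm M 0 A) (g : A ⟶ M) : g = 0 := by
  let e : M⟦(-0 : ℤ)⟧ ≅ M := (shiftFunctorZero' C (-0 : ℤ) (by simp)).app M
  rw [← cancel_mono e.inv, hA 0 le_rfl (g ≫ e.inv), zero_comp]

lemma Zm.third {M : C} {j : ℤ} {A B D : C} {f : A ⟶ B} {g : B ⟶ D} {h : D ⟶ A⟦(1 : ℤ)⟧}
    (hT : Triangle.mk f g h ∈ distTriang C) (hA : Zm M (j + 1) A) (hB : Zm M j B) :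
    Zm M j D := by
  intro k hk x
  obtain ⟨l, hl⟩ := ye3 hT x (hB k hk _)
  rw [hl, hA.shift k hk l, comp_zero]

variable {E : Type w} [Field E] {R : Realisation C E}

/-- The class of the objects without negative maps to `M`, also after tensoring with objects in
degree zero. -/
def LL (R : Realisation C E) (M Y : C) : Prop := ∀ W : C, R.Deg W 0 → Zm M 1 (W ⊗ Y)

lemma LL.tensor {M Y : C} (hY : LL R M Y) {W : C} (hW : R.Deg W 0) : LL R M (W ⊗ Y) := by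
  intro W' hW'
  exact (hY (W' ⊗ W) (by simpa using hW'.tensor hW)).iso (α_ W' W Y)

lemma LL.iso {M Y Y' : C} (e : Y ≅ Y') (hY : LL R M Y) : LL R M Y' := fun W hW =>
  (hY W hW).iso (whiskerLeftIso W e)

lemma LL.third {M A B D : C} {f : A ⟶ B} {g : B ⟶ D} {h : D ⟶ A⟦(1 : ℤ)⟧}
    (hT : Triangle.mk f g h ∈ distTriang C) (hA : LL R M A) (hB : LL R M B) : LL R M D :=
  fun W hW => Zm.third (tensor_dist W hT) ((hA W hW).mono (by omega)) (hB W hW)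

lemma LL.of_deg (hR : Fth R) {M Y : C} (hM : R.Deg M 0) (hY : R.Deg Y 0) : LL R M Y := by
  intro W hW k hk g
  let e : (M⟦-k⟧)⟦k⟧ ≅ M := (shiftFunctorCompIsoId C (-k) k (by omega)).app M
  have h1 : g⟦k⟧' ≫ e.hom = 0 :=
    hR.neg (by simpa using hW.tensor hY) hM k (by omega) _
  apply (shiftFunctor C k).map_injective
  rw [← cancel_mono e.hom, h1, Functor.map_zero, zero_comp]

/-- The isomorphism `W ⊗ (Y ⊗ P) ≅ ((W ⊗ K) ⊗ Y)⟦1⟧` with `K = P⟦-1⟧`. -/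
noncomputable def wyp (W Y P : C) : ((W ⊗ P⟦(-1 : ℤ)⟧) ⊗ Y)⟦(1 : ℤ)⟧ ≅ W ⊗ (Y ⊗ P) :=
  (shiftFunctor C (1 : ℤ)).mapIso (α_ _ _ _ ≪≫ whiskerLeftIso W (β_ _ _)) ≪≫
    (rShift W (Y ⊗ P⟦(-1 : ℤ)⟧) 1).symm ≪≫ whiskerLeftIso W ((rShift Y (P⟦(-1 : ℤ)⟧) 1).symm ≪≫
      whiskerLeftIso Y ((shiftFunctorCompIsoId C (-1 : ℤ) 1 (by omega)).app P))

lemma LL.zero_P {M Y P : C} (hY : LL R M Y) (hP : R.Deg P (-1)) {W : C} (hW : R.Deg W 0) :
    Zm M 0 (W ⊗ (Y ⊗ P)) := by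
  have hK : R.Deg (P⟦(-1 : ℤ)⟧) 0 := hP.shift (-1) 0 (by omega)
  exact (Zm.shift (hY (W ⊗ P⟦(-1 : ℤ)⟧) (by simpa using hW.tensor hK))).iso (wyp W Y P)

lemma LL.tensor_P {M Y P : C} (hY : LL R M Y) (hP : R.Deg P (-1)) : LL R M (Y ⊗ P) :=
  fun _ hW => (hY.zero_P hP hW).mono (by omega)

lemma LL.tensor_pw {M Y P : C} (hY : LL R M Y) (hP : R.Deg P (-1)) (k : ℕ) :
    LL R M (Y ⊗ pw (𝟙_ C) P k) := by
  induction k with
  | zero => exact hY.iso (ρ_ Y).symm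
  | succ k ih => exact (ih.tensor_P hP).iso (α_ _ _ _)

/-- The map `F ⊗ Y ⟶ Y` induced by `v`. -/
def VV {F : C} (v : F ⟶ 𝟙_ C) (Y : C) : F ⊗ Y ⟶ Y := (v ▷ Y) ≫ (λ_ Y).hom

lemma VV_nat {F : C} (v : F ⟶ 𝟙_ C) {Y Y' : C} (f : Y ⟶ Y') :
    (F ◁ f) ≫ VV v Y' = VV v Y ≫ f := by
  simp only [VV, Category.assoc]
  rw [whisker_exchange_assoc, leftUnitor_naturality]

lemma VV_braid {F : C} (v : F ⟶ 𝟙_ C) (Y : C) :
    (Y ◁ v) ≫ (ρ_ Y).hom = (β_ Y F).hom ≫ VV v Y := by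
  simp only [VV]
  rw [← BraidedCategory.braiding_naturality_right_assoc, braiding_leftUnitor]

/-- The data. -/
structure Dat (R : Realisation C E) (M F P : C) where
  hM : R.Deg M 0
  hF : R.Deg F 0
  hP : R.Deg P (-1)
  v : F ⟶ 𝟙_ C
  q : 𝟙_ C ⟶ P
  w : P ⟶ F⟦(1 : ℤ)⟧
  hT : Triangle.mk v q w ∈ distTriang C
  a : F ⊗ M ⟶ M
  ha : (F ◁ a) ≫ a = (F ◁ VV v M) ≫ a

variable {M F P : C}

/-- The stages of the tower. -/
structure TW (D : Dat R M F P) where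
  X : C
  p : M ⟶ X
  s : F ⊗ X ⟶ M
  hps : (F ◁ p) ≫ s = D.a
  hL : LL R M X
  inj : ∀ W : C, R.Deg W 0 → ∀ g : W ⊗ X ⟶ M, (W ◁ p) ≫ g = 0 → g = 0

lemma TW.inj2 {D : Dat R M F P} (T : TW D) (g : F ⊗ (F ⊗ T.X) ⟶ M)
    (h : (F ◁ (F ◁ T.p)) ≫ g = 0) : g = 0 := by
  have h1 := T.inj (F ⊗ F) (by simpa using D.hF.tensor D.hF) ((α_ F F T.X).hom ≫ g) (by
    have h2 : ((F ⊗ F) ◁ T.p) ≫ (α_ F F T.X).hom = (α_ F F M).hom ≫ (F ◁ (F ◁ T.p)) := by simp
    rw [← Category.assoc, h2, Category.assoc, h, comp_zero])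
  rw [← cancel_epi (α_ F F T.X).hom, h1, comp_zero]

lemma TW.vs {D : Dat R M F P} (T : TW D) : (F ◁ T.s) ≫ D.a = (F ◁ VV D.v T.X) ≫ T.s := by
  rw [← sub_eq_zero]
  apply T.inj2
  rw [Preadditive.comp_sub, ← MonoidalCategory.whiskerLeft_comp_assoc,
    ← MonoidalCategory.whiskerLeft_comp_assoc, T.hps, VV_nat, MonoidalCategory.whiskerLeft_comp,
    Category.assoc, T.hps, D.ha, sub_self]

lemma TW.next {D : Dat R M F P} (T : TW D) : ∃ (T' : TW D) (i : T.X ⟶ T'.X),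
    T.p ≫ i = T'.p ∧ (F ◁ i) ≫ T'.s = T.s ∧ VV D.v T.X ≫ i = T.s ≫ T.p ≫ i := by
  let κ : F ⊗ T.X ⟶ T.X := VV D.v T.X - T.s ≫ T.p
  obtain ⟨X', i, d, hT⟩ := distinguished_cocone_triangle κ
  have hF := tensor_dist F hT
  have h0 : (F ◁ κ) ≫ T.s = 0 := by
    have h1 : F ◁ κ = F ◁ VV D.v T.X - F ◁ (T.s ≫ T.p) := (tensorLeft F).map_sub
    rw [h1, Preadditive.sub_comp, MonoidalCategory.whiskerLeft_comp, Category.assoc, T.hps,
      T.vs, sub_self]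
  obtain ⟨s', hs'⟩ := ye2 hF T.s h0
  refine ⟨⟨X', T.p ≫ i, s', ?_, ?_, ?_⟩, i, rfl, hs'.symm, ?_⟩
  · rw [MonoidalCategory.whiskerLeft_comp, Category.assoc, ← hs', T.hps]
  · exact LL.third hT (T.hL.tensor D.hF) T.hL
  · intro W hW g hg
    rw [MonoidalCategory.whiskerLeft_comp, Category.assoc] at hg
    obtain ⟨l, hl⟩ := ye3 (tensor_dist W hT) g (T.inj W hW _ hg)
    have hz : Zm M 0 ((W ⊗ (F ⊗ T.X))⟦(1 : ℤ)⟧) := Zm.shift ((T.hL.tensor D.hF) W hW)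
    rw [hl, hz.zero l, comp_zero]
  · have h1 := comp12 hT
    simp only [κ, Preadditive.sub_comp, Category.assoc, sub_eq_zero] at h1
    exact h1

/-- The next stage. -/
noncomputable def nx {D : Dat R M F P} (T : TW D) : TW D := T.next.choose

/-- The map to the next stage. -/
noncomputable def io {D : Dat R M F P} (T : TW D) : T.X ⟶ (nx T).X := T.next.choose_spec.choose

lemma io_p {D : Dat R M F P} (T : TW D) : T.p ≫ io T = (nx T).p :=
  T.next.choose_spec.choose_spec.1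

lemma io_s {D : Dat R M F P} (T : TW D) : (F ◁ io T) ≫ (nx T).s = T.s :=
  T.next.choose_spec.choose_spec.2.1

lemma io_v {D : Dat R M F P} (T : TW D) : VV D.v T.X ≫ io T = T.s ≫ T.p ≫ io T :=
  T.next.choose_spec.choose_spec.2.2

/-- The tower above a stage. -/
noncomputable def tw {D : Dat R M F P} (T : TW D) : ℕ → TW D
  | 0 => T
  | k + 1 => nx (tw T k)

/-- The maps of the tower. -/
noncomputable def it {D : Dat R M F P} (T : TW D) : ∀ k : ℕ, T.X ⟶ (tw T k).X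
  | 0 => 𝟙 _
  | k + 1 => it T k ≫ io (tw T k)

lemma it_p {D : Dat R M F P} (T : TW D) (k : ℕ) : T.p ≫ it T k = (tw T k).p := by
  induction k with
  | zero => simp [it, tw]
  | succ k ih => rw [it, ← Category.assoc, ih, io_p]; rfl

lemma it_s {D : Dat R M F P} (T : TW D) (k : ℕ) : (F ◁ it T k) ≫ (tw T k).s = T.s := by
  induction k with
  | zero => simp [it, tw]
  | succ k ih =>
    have h1 : (tw T (k + 1)).s = (nx (tw T k)).s := rfl
    rw [it, MonoidalCategory.whiskerLeft_comp, Category.assoc, h1, io_s, ih]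

lemma it_v {D : Dat R M F P} (T : TW D) (k : ℕ) :
    VV D.v T.X ≫ it T (k + 1) = T.s ≫ T.p ≫ it T (k + 1) := by
  induction k with
  | zero => simp only [it, Category.id_comp]; exact io_v T
  | succ k ih =>
    rw [it, ← Category.assoc, ih]
    simp only [Category.assoc]

/-- Nilpotence. -/
lemma nilp {D : Dat R M F P} (T : TW D) {Y : C} (hY : LL R M Y) (δ : Y ⟶ T.X)
    (hδ : (F ◁ δ) ≫ T.s = 0) (k : ℕ) : ∃ δ' : Y ⊗ pw (𝟙_ C) P k ⟶ (tw T k).X,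
      (F ◁ δ') ≫ (tw T k).s = 0 ∧
      (ρ_ Y).inv ≫ (Y ◁ qp D.q k) ≫ δ' = δ ≫ it T k := by
  induction k with
  | zero =>
    refine ⟨(ρ_ Y).hom ≫ δ, ?_, ?_⟩
    · rw [MonoidalCategory.whiskerLeft_comp, Category.assoc]
      have h1 : (F ◁ δ) ≫ (tw T 0).s = 0 := hδ
      rw [h1, comp_zero]
    · simp [qp, it]
  | succ k ih =>
    obtain ⟨δ', h1, h2⟩ := ih
    let Y' : C := Y ⊗ pw (𝟙_ C) P k
    let T' := tw T k
    have h3 : (Y' ◁ D.v) ≫ ((ρ_ Y').hom ≫ δ' ≫ io T') = 0 := by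
      rw [← Category.assoc, VV_braid, Category.assoc, ← Category.assoc (VV D.v Y'), ← VV_nat,
        Category.assoc, io_v, ← Category.assoc (F ◁ δ'), h1, zero_comp, comp_zero]
    obtain ⟨l, hl⟩ := ye2 (tensor_dist Y' D.hT) _ h3
    refine ⟨(α_ Y (pw (𝟙_ C) P k) P).inv ≫ l, ?_, ?_⟩
    · exact (((hY.tensor_pw D.hP k).zero_P D.hP D.hF).iso
        (whiskerLeftIso F (α_ Y (pw (𝟙_ C) P k) P))).zero _
    · have h4 : (ρ_ Y).inv ≫ (Y ◁ qp D.q (k + 1)) ≫ (α_ Y (pw (𝟙_ C) P k) P).inv ≫ l =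
          (ρ_ Y).inv ≫ (Y ◁ qp D.q k) ≫ (ρ_ Y').inv ≫ (Y' ◁ D.q) ≫ l := by
        simp only [qp, MonoidalCategory.whiskerLeft_comp, Category.assoc, Y']
        congr 2
        simp
      rw [h4, ← hl]
      simp only [Iso.inv_hom_id_assoc, it]
      rw [← Category.assoc δ, ← h2]
      simp only [Category.assoc]
      rfl

lemma nilp0 {D : Dat R M F P} (T : TW D) {Y : C} (hY : LL R M Y) (δ : Y ⟶ T.X)
    (hδ : (F ◁ δ) ≫ T.s = 0) (k : ℕ) (hk : qp D.q k = 0) : δ ≫ it T k = 0 := by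
  obtain ⟨δ', _, h2⟩ := nilp T hY δ hδ k
  have h3 : Y ◁ (0 : 𝟙_ C ⟶ pw (𝟙_ C) P k) = 0 := (tensorLeft Y).map_zero _ _
  rw [← h2, hk, h3, zero_comp, comp_zero]

/-- The first stage. -/
def t0 (hR : Fth R) (D : Dat R M F P) : TW D where
  X := M
  p := 𝟙 M
  s := D.a
  hps := by simp
  hL := LL.of_deg hR D.hM D.hM
  inj W _ g hg := by simpa using hg

/-- Extension. -/
lemma exten (hR : Fth R) (D : Dat R M F P) {Y : C} (hY : LL R M Y) (g : F ⊗ Y ⟶ M)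
    (hg : (F ◁ g) ≫ D.a = (F ◁ VV D.v Y) ≫ g) (n : ℕ) (hn : qp D.q n = 0) :
    ∃ π : Y ⟶ (tw (t0 hR D) n).X, (F ◁ π) ≫ (tw (t0 hR D) n).s = g := by
  let T := tw (t0 hR D) n
  have hK := inv_rot_of_distTriang _ D.hT
  let K : C := P⟦(-1 : ℤ)⟧
  have hKd : R.Deg K 0 := D.hP.shift (-1) 0 (by omega)
  let i : K ⟶ F := (Triangle.mk D.v D.q D.w).invRotate.mor₁
  have hK' : Triangle.mk i D.v (Triangle.mk D.v D.q D.w).invRotate.mor₃ ∈ distTriang C := hK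
  have hiv : i ≫ D.v = 0 := comp12 hK'
  let δ : Y ⊗ K ⟶ M := (Y ◁ i) ≫ (β_ Y F).hom ≫ g
  have h1 : (F ◁ δ) ≫ (t0 hR D).s = 0 := by
    change (F ◁ δ) ≫ D.a = 0
    have h2 : F ◁ δ = (F ◁ ((Y ◁ i) ≫ (β_ Y F).hom)) ≫ (F ◁ g) := by
      simp only [δ, MonoidalCategory.whiskerLeft_comp, Category.assoc]
    have h3 : ((Y ◁ i) ≫ (β_ Y F).hom) ≫ VV D.v Y = 0 := by
      rw [Category.assoc, ← VV_braid, ← Category.assoc, ← MonoidalCategory.whiskerLeft_comp, hiv,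
        (tensorLeft Y).map_zero K (𝟙_ C) |> (fun h => (h : Y ◁ (0 : K ⟶ 𝟙_ C) = 0)), zero_comp]
    rw [h2, Category.assoc, hg, ← Category.assoc, ← MonoidalCategory.whiskerLeft_comp, h3]
    have h4 : F ◁ (0 : Y ⊗ K ⟶ Y) = 0 := (tensorLeft F).map_zero _ _
    rw [h4, zero_comp]
  have hYK : LL R M (Y ⊗ K) := (hY.tensor hKd).iso (β_ K Y)
  have h5 := nilp0 (t0 hR D) hYK δ h1 n hn
  have h6 : it (t0 hR D) n = T.p := by
    have := it_p (t0 hR D) n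
    rw [← this]
    change _ = 𝟙 M ≫ _
    rw [Category.id_comp]
  rw [h6] at h5
  have h7 : (Y ◁ i) ≫ ((β_ Y F).hom ≫ g ≫ T.p) = 0 := by
    simpa only [δ, Category.assoc] using h5
  obtain ⟨l, hl⟩ := ye2 (tensor_dist Y hK') _ h7
  let π : Y ⟶ T.X := (ρ_ Y).inv ≫ l
  have h8 : VV D.v Y ≫ π = g ≫ T.p := by
    rw [← cancel_epi (β_ Y F).hom, hl, ← Category.assoc, ← VV_braid]
    simp [π]
  refine ⟨π, ?_⟩
  rw [← sub_eq_zero]
  have h9 : (F ◁ VV D.v Y) ≫ ((F ◁ π) ≫ T.s - g) = 0 := by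
    rw [Preadditive.comp_sub, ← Category.assoc, ← MonoidalCategory.whiskerLeft_comp, h8,
      MonoidalCategory.whiskerLeft_comp, Category.assoc, T.hps, hg, sub_self]
  have h10 : (F ◁ (Y ◁ D.v)) ≫ ((F ◁ (ρ_ Y).hom) ≫ ((F ◁ π) ≫ T.s - g)) = 0 := by
    rw [← Category.assoc, ← MonoidalCategory.whiskerLeft_comp, VV_braid,
      MonoidalCategory.whiskerLeft_comp, Category.assoc, h9, comp_zero]
  obtain ⟨m, hm⟩ := ye2 (tensor_dist F (tensor_dist Y D.hT)) _ h10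
  have h11 : m = 0 := (hY.zero_P D.hP D.hF).zero m
  rw [h11, comp_zero] at hm
  rw [← cancel_epi (F ◁ (ρ_ Y).hom), hm, comp_zero]

/-- The main step. -/
lemma des_left [IsIdempotentComplete C] (hR : Fth R) (D : Dat R M F P) (n : ℕ)
    (hn : qp D.q n = 0) : ∃ (I : C) (p : M ⟶ I) (s : F ⊗ I ⟶ M),
      s ≫ p = VV D.v I ∧ (F ◁ p) ≫ s = D.a := by
  obtain ⟨n, hn⟩ : ∃ m, qp D.q (m + 1) = 0 := ⟨n, by rw [qp, hn, zero_comp]⟩
  let T := tw (t0 hR D) (n + 1)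
  let S := tw T (n + 1)
  obtain ⟨π, hπ⟩ := exten hR D S.hL S.s S.vs (n + 1) hn
  change (F ◁ π) ≫ T.s = S.s at hπ
  let e : T.X ⟶ T.X := it T (n + 1) ≫ π
  have he : (F ◁ e) ≫ T.s = T.s := by
    rw [MonoidalCategory.whiskerLeft_comp, Category.assoc, hπ, it_s]
  have h1 : (F ◁ (e - 𝟙 T.X)) ≫ T.s = 0 := by
    have h2 : F ◁ (e - 𝟙 T.X) = F ◁ e - F ◁ (𝟙 T.X) := (tensorLeft F).map_sub
    rw [h2, Preadditive.sub_comp, he, MonoidalCategory.whiskerLeft_id, Category.id_comp, sub_self]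
  have h3 := nilp0 T T.hL _ h1 (n + 1) hn
  rw [Preadditive.sub_comp, Category.id_comp, sub_eq_zero] at h3
  have h4 : e ≫ e = e := by
    change e ≫ (it T (n + 1) ≫ π) = it T (n + 1) ≫ π
    rw [← Category.assoc, h3]
  obtain ⟨I, c, r, hcr, hrc⟩ := IsIdempotentComplete.idempotents_split T.X e h4
  refine ⟨I, T.p ≫ r, (F ◁ c) ≫ T.s, ?_, ?_⟩
  · have h5 : r = it T (n + 1) ≫ π ≫ r := by
      have : r = e ≫ r := by rw [← hrc, Category.assoc, hcr, Category.comp_id]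
      conv_lhs => rw [this]
      simp only [e, Category.assoc]
    have h6 : T.s ≫ T.p ≫ r = VV D.v T.X ≫ r := by
      rw [h5]
      have h7 := it_v T n
      calc T.s ≫ T.p ≫ it T (n + 1) ≫ π ≫ r = (T.s ≫ T.p ≫ it T (n + 1)) ≫ π ≫ r := by
            simp only [Category.assoc]
        _ = (VV D.v T.X ≫ it T (n + 1)) ≫ π ≫ r := by rw [h7]
        _ = _ := by simp only [Category.assoc]
    rw [Category.assoc, h6, ← Category.assoc, VV_nat, Category.assoc, hcr, Category.comp_id]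
  · rw [← Category.assoc, ← MonoidalCategory.whiskerLeft_comp, Category.assoc, hrc,
      MonoidalCategory.whiskerLeft_comp, Category.assoc, he, T.hps]

end

theorem t_DES : S_DES.{v, u, w} := by
  intro C _ _ _ _ _ _ _ _ _ _ _ _ E _ R hR M F P hM hF hP v q w hT n hn a ha
  have hb : (β_ F M).hom ≫ (M ◁ v) ≫ (ρ_ M).hom = VV v M := by
    rw [VV_braid, SymmetricCategory.symmetry_assoc]
  let D : Dat R M F P :=
    { hM := hM
      hF := hF
      hP := hP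
      v := v
      q := q
      w := w
      hT := hT
      a := (β_ F M).hom ≫ a
      ha := by
        rw [BraidedCategory.braiding_naturality_right_assoc,
          BraidedCategory.braiding_naturality_right_assoc, comp_whiskerRight, Category.assoc,
          ha, ← hb]
        simp only [comp_whiskerRight, Category.assoc] }
  obtain ⟨I, p, s, h1, h2⟩ := des_left hR D n hn
  refine ⟨I, p, (β_ I F).hom ≫ s, ?_, ?_⟩
  · rw [Category.assoc, h1, ← VV_braid]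
  · rw [← Category.assoc, BraidedCategory.braiding_naturality_left, Category.assoc, h2]
    change (β_ M F).hom ≫ (β_ F M).hom ≫ a = a
    rw [SymmetricCategory.symmetry_assoc]

end Run7.h985.TC
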