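import Pool.Agent.Run7.h985.TC.Stm

/-!
Copy of Run7/h858/TC/T3.lean (by helper858).

# Piece T3: truncations and conservativity for retracts of filtered objects
-/

set_option autoImplicit false
set_option linter.unusedSectionVars false
set_option linter.unusedSimpArgs false
set_option backward.isDefEq.respectTransparency false
set_option backward.defeqAttrib.useBackward true

open CategoryTheory Limits MonoidalCategory Pretriangulated Triangulated ZeroObject

namespace Run7.h985.TC.T3c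

open Pool.Agent.Y116.MT Pool.Agent.V1178.MT Run7.h822.MT Run7.h985.TC

universe v u w

section

variable {C : Type u} [Category.{v} C] [Preadditive C] [HasZeroObject C] [HasShift C ℤ]
  [∀ n : ℤ, (shiftFunctor C n).Additive] [Pretriangulated C] [MonoidalCategory C]
  [SymmetricCategory C] [TensorTriangulated C] {E : Type w} [Field E] {R : Realisation C E}

lemma v1 (hF : Fth R) {X Y : C} {i j : ℤ} (hX : R.Deg X i) (hY : R.Deg Y j) (hij : i < j)
    (f : X ⟶ Y) : f = 0 := by
  have hX' : R.Deg (X⟦i⟧) 0 := hX.shift i 0 (by omega)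
  have hY' : R.Deg (Y⟦j⟧) 0 := hY.shift j 0 (by omega)
  apply (shiftFunctor C j).map_injective
  rw [Functor.map_zero]
  let a : X⟦j⟧ ≅ X⟦i⟧⟦j - i⟧ := (shiftFunctorAdd' C i (j - i) j (by omega)).app X
  have h := hF.neg hX' hY' (j - i) (by omega) (a.inv ≫ f⟦j⟧')
  rw [← cancel_epi a.inv, h, comp_zero]

lemma z1 (hF : Fth R) {X Y : C} {i : ℤ} (hX : R.Deg X i) (hY : R.Deg Y i)
    (f : X ⟶ Y) (hf : R.H.map (f⟦i⟧') = 0) : f = 0 := by
  have hX' : R.Deg (X⟦i⟧) 0 := hX.shift i 0 (by omega)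
  have hY' : R.Deg (Y⟦i⟧) 0 := hY.shift i 0 (by omega)
  apply (shiftFunctor C i).map_injective
  rw [Functor.map_zero]
  exact hF.zero hX' hY' _ hf

lemma fil_le {a b : ℤ} {X : C} (h : Fil R a b X) : a ≤ b := by
  induction h with
  | zero hX => exact le_refl _
  | step f g h hT hX' hH ih => omega

lemma fil_high {a b : ℤ} {X : C} (h : Fil R a b X) (k : ℤ) (hk : b < k) :
    IsZero (R.H.obj (X⟦k⟧)) := by
  induction h with
  | zero hX =>
    exact Functor.map_isZero _ (Functor.map_isZero _ hX)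
  | step f g h hT hX' hH ih =>
    exact hz2 R.H hT k (ih (by omega)) (hH k (by omega))

/-- No morphisms to objects in degrees above `c`. -/
def LL (R : Realisation C E) (c : ℤ) (A : C) : Prop :=
  ∀ (Y : C) (j : ℤ), R.Deg Y j → c < j → ∀ f : A ⟶ Y, f = 0

/-- No morphisms from `LL`-objects. -/
def UU (R : Realisation C E) (c : ℤ) (B : C) : Prop :=
  ∀ A : C, LL R c A → ∀ f : A ⟶ B, f = 0

lemma LL.mono {c c' : ℤ} {A : C} (h : LL R c A) (hc : c ≤ c') : LL R c' A :=
  fun Y j hY hj f => h Y j hY (by omega) f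

lemma LL.shift {c : ℤ} {A : C} (h : LL R c A) : LL R c (A⟦(1 : ℤ)⟧) := by
  intro Y j hY hj f
  have hY' : R.Deg (Y⟦(-1 : ℤ)⟧) (j + 1) := hY.shift (-1) (j + 1) (by omega)
  apply (shiftFunctor C (-1 : ℤ)).map_injective
  rw [Functor.map_zero]
  let a : A⟦(1 : ℤ)⟧⟦(-1 : ℤ)⟧ ≅ A := (shiftFunctorCompIsoId C 1 (-1) (by omega)).app A
  have h1 := h _ (j + 1) hY' (by omega) (a.inv ≫ f⟦(-1 : ℤ)⟧')
  rw [← cancel_epi a.inv, h1, comp_zero]

lemma fil_LL (hF : Fth R) {a b : ℤ} {X : C} (h : Fil R a b X) : LL R b X := by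
  induction h with
  | zero hX => exact fun Y j _ _ f => hX.eq_of_src _ _
  | step f g h hT hX' hH ih =>
    intro Y j hY hj k
    obtain ⟨l, rfl⟩ := ye2 hT k (ih Y j hY (by omega) _)
    rw [v1 hF hH hY hj l, comp_zero]

lemma fil_split [IsTriangulated C] (hF : Fth R) (c : ℤ) {a b : ℤ} {X : C} (h : Fil R a b X) :
    ∃ (A B : C) (f : A ⟶ X) (g : X ⟶ B) (d : B ⟶ A⟦(1 : ℤ)⟧),
      Triangle.mk f g d ∈ distTriang C ∧ LL R c A ∧
      (∀ k : ℤ, c < k → IsZero (R.H.obj (A⟦k⟧))) ∧ UU R c B ∧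
      (∀ k : ℤ, k ≤ c → IsZero (R.H.obj (B⟦k⟧))) := by
  induction h with
  | @zero X hX =>
    refine ⟨X, 0, 𝟙 X, 0, 0, contractible_distinguished X, fun Y j _ _ f => hX.eq_of_src _ _,
      fun k _ => Functor.map_isZero _ (Functor.map_isZero _ hX), fun A _ f => ?_,
      fun k _ => Functor.map_isZero _ (Functor.map_isZero _ (isZero_zero C))⟩
    exact (isZero_zero C).eq_of_tgt _ _
  | @step b X' X H f g h hT hX' hH ih =>
    by_cases hc : b + 1 ≤ c
    · have hX : Fil R a (b + 1) X := Fil.step f g h hT hX' hH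
      refine ⟨X, 0, 𝟙 X, 0, 0, contractible_distinguished X, (fil_LL hF hX).mono hc,
        fun k hk => fil_high hX k (by omega), fun A _ f => ?_,
        fun k _ => Functor.map_isZero _ (Functor.map_isZero _ (isZero_zero C))⟩
      exact (isZero_zero C).eq_of_tgt _ _
    · obtain ⟨A, B', f', g', d', hT', hA, hA', hB, hB'⟩ := ih
      obtain ⟨B, g'', d'', hT''⟩ := distinguished_cocone_triangle (f' ≫ f)
      let o := someOctahedron rfl hT' hT hT''
      refine ⟨A, B, f' ≫ f, g'', d'', hT'', hA, hA', ?_, ?_⟩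
      · intro A₀ hA₀ k
        obtain ⟨l, rfl⟩ := ce2 o.mem k (hA₀ H (b + 1) hH (by omega) _)
        rw [hB A₀ hA₀ l, zero_comp]
      · intro k hk
        exact hz2 R.H o.mem k (hB' k hk) (hH k (by omega))

/-- An endomorphism killed by the first map of a triangle. -/
lemma kill {A X B W : C} {f : A ⟶ X} {g : X ⟶ B} {d : B ⟶ A⟦(1 : ℤ)⟧}
    (hT : Triangle.mk f g d ∈ distTriang C) (hB : ∀ l : W⟦(1 : ℤ)⟧ ⟶ B, l = 0)
    (k : W ⟶ A) (hk : k ≫ f = 0) : k = 0 := by
  obtain ⟨l, hl⟩ := ce1 hT (k⟦(1 : ℤ)⟧') (by rw [← Functor.map_comp, hk, Functor.map_zero])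
  apply (shiftFunctor C (1 : ℤ)).map_injective
  rw [hl, hB l, zero_comp, Functor.map_zero]

/-- An idempotent of a filtered object which is zero in the cohomology is zero. -/
lemma fil_idem (hF : Fth R) {a b : ℤ} {X : C} (h : Fil R a b X) :
    ∀ e : X ⟶ X, e ≫ e = e → (∀ k : ℤ, R.H.map (e⟦k⟧') = 0) → e = 0 := by
  induction h with
  | zero hX => exact fun e _ _ => hX.eq_of_src _ _
  | @step b X' X H f g h hT hX' hH ih =>
    intro e he h0
    have hLL := fil_LL hF hX'
    obtain ⟨eb, heb⟩ := ye2 hT (e ≫ g) (hLL H (b + 1) hH (by omega) _)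
    have heb0 : eb = 0 := by
      apply z1 hF hH hH
      have := hepi2 R.H hT (b + 1) (fil_high hX' _ (by omega))
      rw [← cancel_epi (R.H.map (g⟦b + 1⟧')), comp_zero, ← Functor.map_comp, ← Functor.map_comp,
        ← heb, Functor.map_comp, Functor.map_comp, h0, zero_comp]
    obtain ⟨l, hl⟩ := ce2 hT e (by rw [heb, heb0, comp_zero])
    have hk : ∀ k : X' ⟶ X', k ≫ f = 0 → k = 0 :=
      fun k hk => kill hT (fun l => hLL.shift H (b + 1) hH (by omega) l) k hk
    have e1 : (f ≫ l) ≫ f = f ≫ e := by rw [Category.assoc, ← hl]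
    have e2 : (f ≫ l) ≫ (f ≫ l) = f ≫ l := by
      rw [← sub_eq_zero]
      apply hk
      rw [Preadditive.sub_comp, Category.assoc, e1, Category.assoc, ← Category.assoc l f e, ← hl,
        he, sub_self]
    have e3 : f ≫ l = 0 := by
      apply ih _ e2
      intro k
      by_cases hkb : k = b + 2
      · subst hkb
        exact (fil_high hX' (b + 2) (by omega)).eq_of_src _ _
      · have := hmono1 R.H hT k (hH (k - 1) (by omega))
        rw [← cancel_mono (R.H.map (f⟦k⟧')), zero_comp, ← Functor.map_comp, ← Functor.map_comp, e1,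
          Functor.map_comp, Functor.map_comp, h0, comp_zero]
    rw [← he, hl, Category.assoc, ← Category.assoc f l f, e3, zero_comp, comp_zero]

end

theorem t_T3 : S_T3.{v, u, w} := by
  intro C _ _ _ _ _ _ _ _ _ _ _ _ E _ R hF hX
  constructor
  · intro X h0
    obtain ⟨a, b, X', i, r, hir, hfil⟩ := hX X
    have he : r ≫ i = 0 := by
      apply fil_idem hF hfil
      · rw [Category.assoc, ← Category.assoc i r i, hir, Category.id_comp]
      · intro k
        rw [Functor.map_comp, Functor.map_comp, (h0 k).eq_of_tgt (R.H.map (r⟦k⟧')) 0, zero_comp]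
    rw [IsZero.iff_id_eq_zero]
    calc 𝟙 X = (i ≫ r) ≫ (i ≫ r) := by rw [hir, Category.comp_id]
      _ = i ≫ (r ≫ i) ≫ r := by simp only [Category.assoc]
      _ = 0 := by rw [he, zero_comp, comp_zero]
  · intro X
    obtain ⟨a, b, X', i, r, hir, hfil⟩ := hX X
    obtain ⟨A, B, f, g, d, hT, hA, hA', hB, hB'⟩ := fil_split hF 0 hfil
    obtain ⟨e', he'⟩ := ce2 hT (f ≫ r ≫ i) (hB A hA _)
    have hk : ∀ k : A ⟶ A, k ≫ f = 0 → k = 0 :=
      fun k hk => kill hT (fun l => hB _ hA.shift l) k hk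
    have hid : e' ≫ e' = e' := by
      rw [← sub_eq_zero]
      apply hk
      rw [Preadditive.sub_comp, Category.assoc, ← he', ← Category.assoc e' f, ← he']
      simp only [Category.assoc]
      rw [← Category.assoc i r i, hir, Category.id_comp, sub_self]
    obtain ⟨A', s, t, hst, hts⟩ := IsIdempotentComplete.idempotents_split A e' hid
    refine ⟨A', s ≫ f ≫ r, ⟨fun k hk => ?_, fun k hk => ?_⟩⟩
    · rw [IsZero.iff_id_eq_zero]
      have h1 : R.H.map (s⟦k⟧') ≫ R.H.map (t⟦k⟧') = 𝟙 _ := by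
        rw [← Functor.map_comp, ← Functor.map_comp, hst, CategoryTheory.Functor.map_id, CategoryTheory.Functor.map_id]
      rw [← h1, (hA' k hk).eq_of_tgt (R.H.map (s⟦k⟧')) 0, zero_comp]
    · have m1 := hmono1 R.H hT k (hB' (k - 1) (by omega))
      have m2 := hepi1 R.H hT k (hB' k hk)
      have m3 : IsIso (R.H.map (f⟦k⟧')) := isIso_of_mono_of_epi _
      refine ⟨R.H.map (i⟦k⟧') ≫ inv (R.H.map (f⟦k⟧')) ≫ R.H.map (t⟦k⟧'), ?_, ?_⟩
      · have h1 : R.H.map (f⟦k⟧') ≫ R.H.map (r⟦k⟧') ≫ R.H.map (i⟦k⟧') =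
            R.H.map (t⟦k⟧') ≫ R.H.map (s⟦k⟧') ≫ R.H.map (f⟦k⟧') := by
          simp only [← Functor.map_comp]
          rw [he', ← hts, Category.assoc]
        have h2 : R.H.map (s⟦k⟧') ≫ R.H.map (t⟦k⟧') = 𝟙 _ := by
          rw [← Functor.map_comp, ← Functor.map_comp, hst, CategoryTheory.Functor.map_id, CategoryTheory.Functor.map_id]
        simp only [Functor.map_comp, Category.assoc]
        rw [← Category.assoc (R.H.map (r⟦k⟧')), ← Category.assoc (R.H.map (f⟦k⟧')), h1]
        simp only [Category.assoc, IsIso.hom_inv_id_assoc]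
        rw [← Category.assoc (R.H.map (s⟦k⟧')), h2, Category.id_comp]
      · have h1 : R.H.map (t⟦k⟧') ≫ R.H.map (s⟦k⟧') ≫ R.H.map (f⟦k⟧') =
            R.H.map (f⟦k⟧') ≫ R.H.map (r⟦k⟧') ≫ R.H.map (i⟦k⟧') := by
          simp only [← Functor.map_comp]
          rw [he', ← hts, Category.assoc]
        have h2 : R.H.map (i⟦k⟧') ≫ R.H.map (r⟦k⟧') = 𝟙 _ := by
          rw [← Functor.map_comp, ← Functor.map_comp, hir, CategoryTheory.Functor.map_id, CategoryTheory.Functor.map_id]
        simp only [Functor.map_comp, Category.assoc]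
        rw [← Category.assoc (R.H.map (s⟦k⟧')), ← Category.assoc (R.H.map (t⟦k⟧')), h1]
        simp only [Category.assoc, IsIso.inv_hom_id_assoc]
        rw [← Category.assoc (R.H.map (i⟦k⟧')), h2, Category.id_comp]

end Run7.h985.TC.T3c

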