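import Pool.Agent.Run7.h985.TC.Stm2

/-!
# Assembly
-/

set_option autoImplicit false

open CategoryTheory Limits MonoidalCategory Pretriangulated Triangulated

namespace Run7.h985.TC

open Pool.Agent.Y116.MT Pool.Agent.V1178.MT Run7.h822.MT

universe v u w

section

variable {C : Type u} [Category.{v} C] [Preadditive C] [HasZeroObject C] [HasShift C ℤ]
  [∀ n : ℤ, (shiftFunctor C n).Additive] [Pretriangulated C] [IsTriangulated C]
  [MonoidalCategory C] [SymmetricCategory C] [TensorTriangulated C] [MonoidalPreadditive C]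
  [RightRigidCategory C] [IsIdempotentComplete C]
  (hid : ∀ e : 𝟙_ C ⟶ 𝟙_ C, e ≫ e = e → e = 0 ∨ e = 𝟙 _)

/-- Injectivity and generation give truncations and conservativity. -/
theorem trunc_of (hDUAL : S_DUAL.{v, u, w}) (hFTH : S_FTH.{v, u, w}) (hIMG : S_IMG.{v, u, w})
    (hT2 : S_T2.{v, u, w}) (hT3 : S_T3.{v, u, w}) {E : Type w} [Field E] [CharZero E]
    (R : Realisation C E) (hI : Inj R) (hG : Gen R) :
    Conservative R ∧ ∀ X : C, ∃ (A : C) (f : A ⟶ X), LooksLikeTruncation R f := by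
  have hd := fun X : C => hDUAL C E R X
  have hF := hFTH C E R hd hI
  have hIm : HasIm R := hIMG C E R hd hF
  exact hT3 C E R hF (hT2 C E R hF hIm hG)

include hid in
/-- The criterion for one realisation. -/
theorem one (hDUAL : S_DUAL.{v, u, w}) (hFTH : S_FTH.{v, u, w}) (hIMG : S_IMG.{v, u, w})
    (hT2 : S_T2.{v, u, w}) (hT3 : S_T3.{v, u, w}) (hCNV : S_CNV.{v, u, w}) {E : Type w} [Field E]
    [CharZero E] (R : Realisation C E) :
    (∃ t : TStructure C, IsMotivic t (fun _ : Unit => R)) ↔ Inj R ∧ Gen R := by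
  constructor
  · rintro ⟨t, ht⟩
    exact hCNV C hid E R t ht
  · rintro ⟨hI, hG⟩
    obtain ⟨hc, htr⟩ := trunc_of hDUAL hFTH hIMG hT2 hT3 R hI hG
    exact ⟨tOf R hc htr, motivic_tOf hc htr⟩

include hid in
/-- The criterion for a family. -/
theorem family (hDUAL : S_DUAL.{v, u, w}) (hFTH : S_FTH.{v, u, w}) (hIMG : S_IMG.{v, u, w})
    (hT2 : S_T2.{v, u, w}) (hT3 : S_T3.{v, u, w}) (hCNV : S_CNV.{v, u, w})
    (hCK1 : S_CK1.{v, u, w}) (hCK2 : S_CK2.{v, u, w})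
    {Λ : Type*} {E : Λ → Type w} [∀ l, Field (E l)] [∀ l, CharZero (E l)]
    (R : ∀ l, Realisation C (E l)) (l₀ : Λ) (Q : ObjectProperty C) (T : C)
    (hQ : PureGenerators Q T R l₀) :
    List.TFAE [∃ t : TStructure C, IsMotivic t R,
      ∃ t : TStructure C, IsMotivic t (fun _ : Unit => R l₀),
      Inj (R l₀) ∧ Gen (R l₀),
      Inj (R l₀) ∧ ∀ X, Q X → IsSum (R l₀) X,
      Conservative (R l₀) ∧ ∀ X : C, ∃ (A : C) (f : A ⟶ X), LooksLikeTruncation (R l₀) f] := by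
  have h12 := motivic_iff_one hid R l₀ Q T hQ
  have h1 := one hid hDUAL hFTH hIMG hT2 hT3 hCNV (R l₀)
  tfae_have 1 ↔ 2 := ⟨fun ⟨t, ht⟩ => ⟨t, (h12 t).2 ht⟩, fun ⟨t, ht⟩ => ⟨t, (h12 t).1 ht⟩⟩
  tfae_have 2 ↔ 3 := h1
  tfae_have 2 → 4 := by
    rintro ⟨t, ht⟩
    refine ⟨(h1.1 ⟨t, ht⟩).1, fun X hX => ?_⟩
    obtain ⟨T', hT'⟩ := hQ.invertible
    obtain ⟨e, he⟩ := hQ.lefschetz X hX
    exact hCK2 C hid (E l₀) (R l₀) t ht T T' hT' (hQ.degree l₀) X e he
  tfae_have 4 → 3 := by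
    rintro ⟨hI, hs⟩
    refine ⟨hI, fun P hP h0 => ?_⟩
    exact hQ.generates P hP fun X hX => hCK1 C (E l₀) (R l₀) P hP h0 X (hs X hX)
  tfae_have 2 → 5 := by
    rintro ⟨t, ht⟩
    exact truncations_of_motivic hid ht
  tfae_have 5 → 2 := by
    rintro ⟨hc, htr⟩
    exact ⟨tOf (R l₀) hc htr, motivic_tOf hc htr⟩
  tfae_finish

end

end Run7.h985.TC
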