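import Pool.Agent.Run7.h985.TC.Stm2

/-!
# Interface, third part: conservativity and a good class of generators suffice

THEOREM (clause 6): a motivic t-structure exists if and only if `R` is conservative and `C` is
generated by a class `S` of objects in degree zero, containing `𝟙` and closed under tensor products
and duals, such that `Hom(𝟙, X) ⟶ H(X)` is injective and `Hom(𝟙, X⟦-n⟧) = 0` (`n > 0`) for `X` in
`S` only. (For motives: `S` = the summands in one degree of Chow motives, shifted to degree zero.)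
-/

set_option autoImplicit false

open CategoryTheory Limits MonoidalCategory Pretriangulated Triangulated

namespace Run7.h985.TC

open Pool.Agent.Y116.MT Pool.Agent.V1178.MT Run7.h822.MT

universe v u w

section

variable {C : Type u} [Category.{v} C] [Preadditive C] [HasZeroObject C] [HasShift C ℤ]
  [∀ n : ℤ, (shiftFunctor C n).Additive] [Pretriangulated C] [MonoidalCategory C]
  [SymmetricCategory C] [TensorTriangulated C]

/-- A good class of objects in degree zero. -/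
structure Good [RightRigidCategory C] {E : Type w} [Field E] (R : Realisation C E)
    (U : ObjectProperty C) : Prop where
  unit : U (𝟙_ C)
  tensor {X Y : C} : U X → U Y → U (X ⊗ Y)
  dual {X : C} : U X → U (Xᘁ)
  deg {X : C} : U X → R.Deg X 0
  zero {X : C} (f : 𝟙_ C ⟶ X) : U X → R.H.map f = 0 → f = 0
  neg {X : C} (n : ℤ) (f : 𝟙_ C ⟶ X⟦-n⟧) : U X → 0 < n → f = 0

/-- Faithfulness in degrees `≤ 0` on a class of objects in degree zero which contains `𝟙` and is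
closed under tensor products. -/
structure FthU {E : Type w} [Field E] (R : Realisation C E) (U : ObjectProperty C) : Prop where
  unit : U (𝟙_ C)
  tensor {X Y : C} : U X → U Y → U (X ⊗ Y)
  deg {X : C} : U X → R.Deg X 0
  zero {X Y : C} (hX : U X) (hY : U Y) (f : X ⟶ Y) (hf : R.H.map f = 0) : f = 0
  neg {X Y : C} (hX : U X) (hY : U Y) (n : ℤ) (hn : 0 < n) (f : X⟦n⟧ ⟶ Y) : f = 0

/-- The objects which are quotients of an object `M` of `U` after multiplication with a nonzero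
`v : F ⟶ 𝟙`, `F` in `U`. -/
def Cl (U : ObjectProperty C) : ObjectProperty C := fun I =>
  ∃ (M F : C) (v : F ⟶ 𝟙_ C) (p : M ⟶ I) (s : I ⊗ F ⟶ M), U M ∧ U F ∧ v ≠ 0 ∧
    s ≫ p = (I ◁ v) ≫ (ρ_ I).hom

/-- Iterated extensions of objects `H` with `U (H⟦i⟧)` (so in degree `i`), for `i` in the list,
the first entry of the list is the subobject. -/
inductive Wd (U : ObjectProperty C) : List ℤ → C → Prop
  | nil {X : C} (hX : IsZero X) : Wd U [] X
  | cons {i : ℤ} {l : List ℤ} {H X X' : C} (f : H ⟶ X) (g : X ⟶ X') (h : X' ⟶ H⟦(1 : ℤ)⟧)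
      (hT : Triangle.mk f g h ∈ distTriang C) (hH : U (H⟦i⟧)) (hX' : Wd U l X') :
      Wd U (i :: l) X

/-- The cone of a map between objects of `U` is an extension of an object of `U` by a shifted
object of `U` (kernels and cokernels). -/
def HasKQ (U : ObjectProperty C) : Prop := ∀ {M N Z : C} (f : M ⟶ N) (g : N ⟶ Z)
  (h : Z ⟶ M⟦(1 : ℤ)⟧), Triangle.mk f g h ∈ distTriang C → U M → U N →
  ∃ (K Q : C) (a : K⟦(1 : ℤ)⟧ ⟶ Z) (b : Z ⟶ Q) (c : Q ⟶ K⟦(1 : ℤ)⟧⟦(1 : ℤ)⟧),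
    Triangle.mk a b c ∈ distTriang C ∧ U K ∧ U Q

end

/-- NILC (adaptation of NIL). As NIL, but with conservativity. The realisation of
`S = asym 1 𝟙 P n` vanishes in all degrees for large `n` (`R.H.map (alt 𝟙 K n) = 0`, then
`asym_mrg`). Now `qp q n ≫ S = n! • qp q n`, so `qp q n ≫ (S - n! • 𝟙) = 0`, and `S - n! • 𝟙` is an
isomorphism: its realisation is `-n! • 𝟙` (`isIso_of_H`). So `qp q n = 0`. -/
def S_NILC : Prop := ∀ (C : Type u) [Category.{v} C] [Preadditive C] [HasZeroObject C]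
  [HasShift C ℤ] [∀ n : ℤ, (shiftFunctor C n).Additive] [Pretriangulated C] [IsTriangulated C]
  [MonoidalCategory C] [SymmetricCategory C] [TensorTriangulated C] [MonoidalPreadditive C]
  (E : Type w) [Field E] [CharZero E] (R : Realisation C E), Conservative R →
  ∀ (P : C) (q : 𝟙_ C ⟶ P), R.Deg P (-1) → ∃ n : ℕ, qp q n = 0

/-- GFT (adaptation of FTH). -/
def S_GFT : Prop := ∀ (C : Type u) [Category.{v} C] [Preadditive C] [HasZeroObject C]
  [HasShift C ℤ] [∀ n : ℤ, (shiftFunctor C n).Additive] [Pretriangulated C] [IsTriangulated C]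
  [MonoidalCategory C] [SymmetricCategory C] [TensorTriangulated C] [MonoidalPreadditive C]
  [RightRigidCategory C] (E : Type w) [Field E] (R : Realisation C E) (U : ObjectProperty C),
  Good R U → FthU R U

/-- CRU (adaptation of CR1; `r = 0` means `f = 0` up to unitors). -/
def S_CRU : Prop := ∀ (C : Type u) [Category.{v} C] [Preadditive C] [HasZeroObject C]
  [HasShift C ℤ] [∀ n : ℤ, (shiftFunctor C n).Additive] [Pretriangulated C] [IsTriangulated C]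
  [MonoidalCategory C] [SymmetricCategory C] [TensorTriangulated C] [MonoidalPreadditive C]
  (E : Type w) [Field E] (R : Realisation C E) (U : ObjectProperty C), FthU R U →
  ∀ (M N : C), U M → U N → ∀ f : M ⟶ N, f ≠ 0 →
  ∃ (V W : C) (g : V ⟶ W) (A : V ⊗ N ⟶ W ⊗ M), U V ∧ U W ∧ g ≠ 0 ∧
    (V ◁ f) ≫ A ≫ (W ◁ f) = (g ▷ M) ≫ (W ◁ f)

/-- DESU (adaptation of DES; helper985 does it). With the factorisation property of `p`. -/
def S_DESU : Prop := ∀ (C : Type u) [Category.{v} C] [Preadditive C] [HasZeroObject C]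
  [HasShift C ℤ] [∀ n : ℤ, (shiftFunctor C n).Additive] [Pretriangulated C] [IsTriangulated C]
  [MonoidalCategory C] [SymmetricCategory C] [TensorTriangulated C] [MonoidalPreadditive C]
  [IsIdempotentComplete C] (E : Type w) [Field E] (R : Realisation C E) (U : ObjectProperty C),
  FthU R U → ∀ (M F P : C), U M → U F →
  ∀ (v : F ⟶ 𝟙_ C) (q : 𝟙_ C ⟶ P) (w : P ⟶ F⟦(1 : ℤ)⟧), Triangle.mk v q w ∈ distTriang C →
  ∀ n : ℕ, qp q n = 0 →
  ∀ a : M ⊗ F ⟶ M, (a ▷ F) ≫ a = ((M ◁ v ≫ (ρ_ M).hom) ▷ F) ≫ a →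
  ∃ (I : C) (p : M ⟶ I) (s : I ⊗ F ⟶ M), s ≫ p = (I ◁ v) ≫ (ρ_ I).hom ∧ (p ▷ F) ≫ s = a ∧
    ∀ (N : C), U N → ∀ g : M ⟶ N, a ≫ g = (M ◁ v) ≫ (ρ_ M).hom ≫ g → ∃ j : I ⟶ N, p ≫ j = g

/-- CLG (120-200 lines). `Cl U` is good, contains `U`, and `Cl (Cl U) ≤ Cl U`. Proof.
`U ≤ Cl U`: `F = 𝟙`, `v = 𝟙`. Degree: as in IMG (i) (`v ≠ 0`, so `H(v) ≠ 0` by `FthU.zero`, `H(v)` is
surjective, `H^i(I)` for `i ≠ 0` is a quotient of `H^i(I ⊗ F)` through `H^i(M) = 0`).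
Tensor: for `(M, F, v, p, s)` and `(M', F', v', p', s')` take `M ⊗ M'`, `F ⊗ F'`, `v ⊗ v'` (nonzero, as
`H(v ⊗ v')` is), `p ⊗ p'`, and `s ⊗ s'` after the exchange of the middle factors.
Dual: for `Iᘁ` take `M' = Mᘁ ⊗ F`, the same `F, v`, `s' = pᘁ ⊗ F : Iᘁ ⊗ F ⟶ Mᘁ ⊗ F` and
`p' : Mᘁ ⊗ F ⟶ Iᘁ` adjoint to `Mᘁ ⊗ F ⊗ I ≅ Mᘁ ⊗ (I ⊗ F) ⟶ Mᘁ ⊗ M ⟶ 𝟙`.
Zero: let `x : 𝟙 ⟶ I`, `H(x) = 0`. `y = (x ▷ F) ≫ s : 𝟙 ⊗ F ⟶ M` has `H(y) = 0`, so `y = 0`. Let
`v, q, w` be a triangle with third object `P`; `R.Deg P (-1)`, `qp q n = 0` for some `n` by NILC.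
Claim for all `k`: there is `x_k : pw 𝟙 P k ⟶ I` with `qp q k ≫ x_k = x` and `(x_k ▷ F) ≫ s = 0`. Step:
`((pw 𝟙 P k) ◁ v) ≫ ρ ≫ x_k = (x_k ▷ F) ≫ s ≫ p = 0`, so `ρ ≫ x_k = (pw 𝟙 P k ◁ q) ≫ x_(k+1)`; the map
`(x_(k+1) ▷ F) ≫ s : (pw 𝟙 P k ⊗ P) ⊗ F ⟶ M` is zero since it restricts to `(x_k ▷ F) ≫ s = 0` on
`pw 𝟙 P k ⊗ F` and all maps `(pw 𝟙 P k ⊗ (F ⊗ F))⟦1⟧ ⟶ M` are zero [the class of objects `Y` such that
all maps `(Y ⊗ W)⟦m⟧ ⟶ M`, `m ≥ 1`, `W` in `U`, are zero contains `U` and is closed under cones, in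
particular under `Y ↦ Y ⊗ P`; it is `LL` in DES.lean]. So `x = qp q n ≫ x_n = 0`.
Neg: the same argument for `x : 𝟙 ⟶ I⟦-n⟧` (or `𝟙⟦n⟧ ⟶ I`); here already `(x ▷ F) ≫ s = 0` by `FthU.neg`.
`Cl (Cl U) ≤ Cl U`: `I` from `(M, F, v, p, s)`, `M` from `(M₀, F₀, v₀, p₀, s₀)`, `F` from
`(M₁, F₁, v₁, p₁, s₁)`: take `M₀`, `M₁ ⊗ F₀`, `(p₁ ≫ v) ⊗ v₀` (nonzero: `H(p₁)` is surjective and
`H(v) ≠ 0`), `p₀ ≫ p`, and `I ⊗ (M₁ ⊗ F₀) ⟶ I ⊗ (F ⊗ F₀) ⟶ M ⊗ F₀ ⟶ M₀`. -/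
def S_CLG : Prop := ∀ (C : Type u) [Category.{v} C] [Preadditive C] [HasZeroObject C]
  [HasShift C ℤ] [∀ n : ℤ, (shiftFunctor C n).Additive] [Pretriangulated C] [IsTriangulated C]
  [MonoidalCategory C] [SymmetricCategory C] [TensorTriangulated C] [MonoidalPreadditive C]
  [RightRigidCategory C] (E : Type w) [Field E] [CharZero E] (R : Realisation C E)
  (U : ObjectProperty C), Conservative R → Good R U →
  Good R (Cl U) ∧ (∀ X, U X → Cl U X) ∧ ∀ X, Cl (Cl U) X → Cl U X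

/-- KQ (150-220 lines; the beginning is IMG of helper642). `U` is closed under isomorphisms (`Cl U`
is, and `U ≤ Cl U` with `F = 𝟙`). If `f = 0`, `Z` is the sum of `M⟦1⟧` and `N`. Let `f ≠ 0`.
(a) Image: CRU and CR2 give `F = Wᘁ ⊗ V` in `U`, `v ≠ 0`, `b` with
`(f ▷ F) ≫ b ≫ f = (M ◁ v) ≫ ρ ≫ f`. `H(v) ≠ 0` (`FthU.zero`), so the third vertex `P` of a triangle on
`v` has `R.Deg P (-1)`, and NILC, DESU for `a = (f ▷ F) ≫ b` give `I, p, s`, and `j` with `p ≫ j = f`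
(`g = f`). `I` is in `Cl U`, so in `U`. `H(p)` is epi and `H(j)` mono as in IMG.
(b) The fibre `K`, `k : K ⟶ M`, of `p` is in `Cl U ≤ U`: CRU, CR2 for `p` (if `p = 0` then `I = 0`,
`K = M`) give `F', v', b'` with `(p ▷ F') ≫ b' ≫ p = (M ◁ v') ≫ ρ ≫ p`; `κ = (M ◁ v') ≫ ρ - (p ▷ F') ≫ b'`
has `κ ≫ p = 0`, so `κ = p_K ≫ k`, `p_K : M ⊗ F' ⟶ K`. With `s = k ▷ F' : K ⊗ F' ⟶ M ⊗ F'`,
`(s ≫ p_K - (K ◁ v') ≫ ρ) ≫ k = 0`, and the difference is zero since `Hom((K ⊗ F')⟦1⟧, I) = 0`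
[by the triangle, such a map comes from `z : I ⊗ F' ⟶ I` with `(p ▷ F') ≫ z = 0`, `H(z) = 0`, `z = 0`;
and `Hom((M ⊗ F')⟦1⟧, I) = 0`].
(c) The cone `Q`, `π : N ⟶ Q`, of `j : I ⟶ N` is in `Cl U ≤ U`: CRU, CR2 for `j` give `F', v', b'` with
`(j ▷ F') ≫ b' ≫ j = (I ◁ v') ≫ ρ ≫ j`, so `(j ▷ F') ≫ b' = (I ◁ v') ≫ ρ` (`H(j)` mono, `FthU.zero`).
`e = (N ◁ v') ≫ ρ - b' ≫ j : N ⊗ F' ⟶ N` has `(j ▷ F') ≫ e = 0`, so `e = (π ▷ F') ≫ s`,
`s : Q ⊗ F' ⟶ N`, and `(π ▷ F') ≫ (s ≫ π - (Q ◁ v') ≫ ρ) = 0`; the difference factors through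
`(I ⊗ F')⟦1⟧ ⟶ Q`, and `Hom((I ⊗ F')⟦1⟧, Q) = 0` [it goes injectively to the
`z⟦1⟧ : (I ⊗ F')⟦1⟧ ⟶ I⟦1⟧` with `z ≫ j = 0`, so `z = 0`; `Hom((I ⊗ F')⟦1⟧, N) = 0`].
(d) Octahedral axiom for `f = p ≫ j`: `K⟦1⟧ ⟶ Z ⟶ Q`. -/
def S_KQ : Prop := ∀ (C : Type u) [Category.{v} C] [Preadditive C] [HasZeroObject C]
  [HasShift C ℤ] [∀ n : ℤ, (shiftFunctor C n).Additive] [Pretriangulated C] [IsTriangulated C]
  [MonoidalCategory C] [SymmetricCategory C] [TensorTriangulated C] [MonoidalPreadditive C]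
  [RightRigidCategory C] [IsIdempotentComplete C] (E : Type w) [Field E] [CharZero E]
  (R : Realisation C E) (U : ObjectProperty C), Conservative R → Good R U →
  (∀ X, Cl U X → U X) → HasKQ U

/-- W1 (120-200 lines, triangulated categories only). Sorting. Swap: let `H_i ⟶ Y ⟶ H_j` with
`U (H_i⟦i⟧)`, `U (H_j⟦j⟧)` and `i > j`. Then there is `H'_j ⟶ Y ⟶ H'_i`: the connecting map
`H_j ⟶ H_i⟦1⟧` is zero if `i - 1 > j` (`FthU.neg`), so `Y` is the direct sum; if `i = j + 1` it is, after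
the shift by `j`, a map of `U`, with cone `Y⟦1⟧⟦j⟧`, and `HasKQ` gives `K⟦1⟧ ⟶ Y⟦1⟧⟦j⟧ ⟶ Q`; shift
back. Insertion of `i` in a sorted `j :: l`: by the octahedral axiom the fibre `Y` of
`X ⟶ X' ⟶ X''` is such an extension, and `Y ⟶ X ⟶ X''`; after the swap `H'_j ⟶ X ⟶ X₁` with
`H'_i ⟶ X₁ ⟶ X''`, and induction on the list for `X₁`. Then insertion sort. -/
def S_W1 : Prop := ∀ (C : Type u) [Category.{v} C] [Preadditive C] [HasZeroObject C]
  [HasShift C ℤ] [∀ n : ℤ, (shiftFunctor C n).Additive] [Pretriangulated C] [IsTriangulated C]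
  [MonoidalCategory C] [SymmetricCategory C] [TensorTriangulated C] [MonoidalPreadditive C]
  (E : Type w) [Field E] (R : Realisation C E) (U : ObjectProperty C), FthU R U →
  (∀ X Y : C, U X → Nonempty (X ≅ Y) → U Y) → HasKQ U →
  ∀ (l : List ℤ) (X : C), Wd U l X → ∃ l' : List ℤ, l'.Pairwise (· ≤ ·) ∧ Wd U l' X

/-- W2 (80-130 lines, triangulated categories only; compare T2 of helper650). Every object is a
retract of an iterated extension. -/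
def S_W2 : Prop := ∀ (C : Type u) [Category.{v} C] [Preadditive C] [HasZeroObject C]
  [HasShift C ℤ] [∀ n : ℤ, (shiftFunctor C n).Additive] [Pretriangulated C] [IsTriangulated C]
  (U : ObjectProperty C), (∀ X Y : C, U X → Nonempty (X ≅ Y) → U Y) →
  (∀ P : ObjectProperty C, IsThick P → (∀ X, U X → P X) → ∀ X, P X) →
  ∀ X : C, ∃ (l : List ℤ) (X' : C) (i : X ⟶ X') (r : X' ⟶ X), i ≫ r = 𝟙 X ∧ Wd U l X'

/-- W3 (80-130 lines; compare T3 of helper858). Truncations: a sorted iterated extension `X'` has a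
triangle `A ⟶ X' ⟶ B`, `A` an extension of objects in degrees `≤ 0`, `B` of objects in degrees `> 0`
(octahedral axiom), `Hom(A, B) = 0 = Hom(A, B⟦-1⟧)` by `FthU.neg`; for a retract as in T3. -/
def S_W3 : Prop := ∀ (C : Type u) [Category.{v} C] [Preadditive C] [HasZeroObject C]
  [HasShift C ℤ] [∀ n : ℤ, (shiftFunctor C n).Additive] [Pretriangulated C] [IsTriangulated C]
  [MonoidalCategory C] [SymmetricCategory C] [TensorTriangulated C] [MonoidalPreadditive C]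
  [IsIdempotentComplete C] (E : Type w) [Field E] (R : Realisation C E) (U : ObjectProperty C),
  FthU R U → (∀ X : C, ∃ (l : List ℤ) (X' : C) (i : X ⟶ X') (r : X' ⟶ X), i ≫ r = 𝟙 X ∧
    l.Pairwise (· ≤ ·) ∧ Wd U l X') →
  ∀ X : C, ∃ (A : C) (f : A ⟶ X), LooksLikeTruncation R f

end Run7.h985.TC
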