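import Pool.Agent.Run7.h985.TC.Asm
import Pool.Agent.Run7.h985.TC.Stm3

/-!
# Assembly, third part: conservativity and a good class of generators
-/

set_option autoImplicit false

open CategoryTheory Limits MonoidalCategory Pretriangulated Triangulated

namespace Run7.h985.TC

open Pool.Agent.Y116.MT Pool.Agent.V1178.MT Run7.h822.MT

universe v u w

section

variable {C : Type u} [Category.{v} C] [Preadditive C] [HasZeroObject C] [HasShift C ℤ]
  [∀ n : ℤ, (shiftFunctor C n).Additive] [Pretriangulated C] [IsTriangulated C]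
  [MonoidalCategory C] [SymmetricCategory C] [TensorTriangulated C] [MonoidalPreadditive C]
  [RightRigidCategory C] [IsIdempotentComplete C]
  (hid : ∀ e : 𝟙_ C ⟶ 𝟙_ C, e ≫ e = e → e = 0 ∨ e = 𝟙 _)

/-- `Cl U` is closed under isomorphisms. -/
lemma Cl.iso {U : ObjectProperty C} {X Y : C} (hX : Cl U X) (e : X ≅ Y) : Cl U Y := by
  obtain ⟨M, F, v, p, s, hM, hF, hv, h⟩ := hX
  refine ⟨M, F, v, p ≫ e.hom, (e.inv ▷ F) ≫ s, hM, hF, hv, ?_⟩
  have h1 : (e.inv ▷ F) ≫ (X ◁ v) = (Y ◁ v) ≫ (e.inv ▷ 𝟙_ C) := (whisker_exchange e.inv v).symm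
  calc ((e.inv ▷ F) ≫ s) ≫ p ≫ e.hom = (e.inv ▷ F) ≫ (s ≫ p) ≫ e.hom := by
        simp only [Category.assoc]
    _ = ((e.inv ▷ F) ≫ (X ◁ v)) ≫ (ρ_ X).hom ≫ e.hom := by rw [h]; simp only [Category.assoc]
    _ = (Y ◁ v) ≫ (ρ_ Y).hom := by
        rw [h1, Category.assoc, rightUnitor_naturality_assoc, Iso.inv_hom_id, Category.comp_id]

/-- Truncations from a good class of generators. -/
theorem trunc_good (hGFT : S_GFT.{v, u, w}) (hCLG : S_CLG.{v, u, w}) (hKQ : S_KQ.{v, u, w})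
    (hW1 : S_W1.{v, u, w}) (hW2 : S_W2.{v, u}) (hW3 : S_W3.{v, u, w}) {E : Type w} [Field E]
    [CharZero E] (R : Realisation C E) (hc : Conservative R) {S : ObjectProperty C}
    (hS : Good R S) (hG : ∀ P : ObjectProperty C, IsThick P → (∀ X, S X → P X) → ∀ X, P X) :
    ∀ X : C, ∃ (A : C) (f : A ⟶ X), LooksLikeTruncation R f := by
  obtain ⟨hU, hSU, hUU⟩ := hCLG C E R S hc hS
  have hiso : ∀ X Y : C, Cl S X → Nonempty (X ≅ Y) → Cl S Y := fun X Y hX ⟨e⟩ => hX.iso e
  have hF := hGFT C E R (Cl S) hU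
  have hK : HasKQ (Cl S) := hKQ C E R (Cl S) hc hU hUU
  refine hW3 C E R (Cl S) hF fun X => ?_
  obtain ⟨l, X', i, r, hir, hX'⟩ := hW2 C (Cl S) hiso
    (fun P hP h => hG P hP fun X hX => h X (hSU X hX)) X
  obtain ⟨l', hl', hX''⟩ := hW1 C E R (Cl S) hF hiso hK l X' hX'
  exact ⟨l', X', i, r, hir, hl', hX''⟩

include hid in
/-- The criterion with conservativity and a good class of generators. -/
theorem six (hDUAL : S_DUAL.{v, u, w}) (hCNV : S_CNV.{v, u, w}) (hGFT : S_GFT.{v, u, w})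
    (hCLG : S_CLG.{v, u, w}) (hKQ : S_KQ.{v, u, w}) (hW1 : S_W1.{v, u, w}) (hW2 : S_W2.{v, u})
    (hW3 : S_W3.{v, u, w}) {E : Type w} [Field E] [CharZero E] (R : Realisation C E) :
    (∃ t : TStructure C, IsMotivic t (fun _ : Unit => R)) ↔
      Conservative R ∧ ∃ S : ObjectProperty C, Good R S ∧
        ∀ P : ObjectProperty C, IsThick P → (∀ X, S X → P X) → ∀ X, P X := by
  constructor
  · rintro ⟨t, ht⟩
    obtain ⟨hI, hG⟩ := hCNV C hid E R t ht
    refine ⟨(truncations_of_motivic hid ht).1, fun X => R.Deg X 0, ?_, hG⟩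
    exact
      { unit := deg_unit
        tensor := fun hX hY => by simpa using hX.tensor hY
        dual := fun {X} hX => hDUAL C E R X hX
        deg := fun hX => hX
        zero := fun {X} f hX hf => hI.zero X f hX hf
        neg := fun {X} n f hX hn => hI.neg X n f hX hn }
  · rintro ⟨hc, S, hS, hG⟩
    have htr := trunc_good hGFT hCLG hKQ hW1 hW2 hW3 R hc hS hG
    exact ⟨tOf R hc htr, motivic_tOf hc htr⟩

end

end Run7.h985.TC
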