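import Pool.Agent.Run7.h822.MT.Defs

/-!
# Definitions for the criteria for the motivic t-structure
-/

set_option autoImplicit false

open CategoryTheory Limits MonoidalCategory Pretriangulated Triangulated

namespace Run7.h985.Crit

open Pool.Agent.Y116.MT Pool.Agent.V1178.MT Run7.h822.MT

universe v u w

section

variable {C : Type u} [Category.{v} C] [Preadditive C] [HasZeroObject C] [HasShift C ℤ]
  [∀ n : ℤ, (shiftFunctor C n).Additive] [Pretriangulated C]

/-- The class `S` generates `C` as a thick triangulated subcategory. -/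
def Generates (S : ObjectProperty C) : Prop :=
  ∀ P : ObjectProperty C, IsThick P → (∀ X, S X → P X) → ∀ X, P X

variable [MonoidalCategory C] [SymmetricCategory C] [TensorTriangulated C]

/-- The class of the objects with cohomology only in degree zero. -/
def DegZero {E : Type w} [Field E] (R : Realisation C E) : ObjectProperty C :=
  fun X => R.Deg X 0

/-- For the objects `X` in `S`, the realisation is injective on `Hom(𝟙, X)`, and
`Hom(𝟙, X⟦-n⟧) = 0` for `n > 0`. -/
structure Injective {E : Type w} [Field E] (R : Realisation C E) (S : ObjectProperty C) :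
    Prop where
  zero (X : C) (f : 𝟙_ C ⟶ X) : S X → R.H.map f = 0 → f = 0
  neg (X : C) (n : ℤ) (f : 𝟙_ C ⟶ X⟦-n⟧) : S X → 0 < n → f = 0

/-- `X` is a finite direct sum of objects each of which has cohomology in one degree only. -/
inductive IsSum {E : Type w} [Field E] (R : Realisation C E) : C → Prop
  | one {X : C} (a : ℤ) (hX : R.Deg X a) : IsSum R X
  | sum {A B X : C} (iA : A ⟶ X) (rA : X ⟶ A) (iB : B ⟶ X) (rB : X ⟶ B)
      (hA : iA ≫ rA = 𝟙 A) (hB : iB ≫ rB = 𝟙 B) (h : rA ≫ iA + rB ≫ iB = 𝟙 X)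
      (sA : IsSum R A) (sB : IsSum R B) : IsSum R X

/-- A good class of objects: they have cohomology only in degree zero, `𝟙` is among them, they are
closed under tensor products and duals, and `Injective` holds for them. -/
structure Good [RightRigidCategory C] {E : Type w} [Field E] (R : Realisation C E)
    (S : ObjectProperty C) : Prop where
  unit : S (𝟙_ C)
  tensor {X Y : C} : S X → S Y → S (X ⊗ Y)
  dual {X : C} : S X → S (Xᘁ)
  deg {X : C} : S X → R.Deg X 0
  injective : Injective R S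

/-- The tensor powers `𝟙 ⟶ (⋯(𝟙 ⊗ P)⋯) ⊗ P` of a morphism `q : 𝟙 ⟶ P`. -/
def qpow {P : C} (q : 𝟙_ C ⟶ P) : ∀ n : ℕ, 𝟙_ C ⟶ twist P (𝟙_ C) n
  | 0 => 𝟙 _
  | n + 1 => (λ_ (𝟙_ C)).inv ≫ (qpow q n ⊗ₘ q)

/-- For every triangle `F ⟶ 𝟙 ⟶ P ⟶ F⟦1⟧` with `F` in `S` and a nonzero first morphism, some
tensor power of the second morphism is zero. -/
def Nilpotent (S : ObjectProperty C) : Prop :=
  ∀ (F P : C) (v : F ⟶ 𝟙_ C) (q : 𝟙_ C ⟶ P) (w : P ⟶ F⟦(1 : ℤ)⟧),
    Triangle.mk v q w ∈ distTriang C → S F → v ≠ 0 → ∃ n : ℕ, qpow q n = 0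

end

end Run7.h985.Crit
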