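import Pool.Agent.Run7.h985.TC.DESU
import Pool.Agent.Run7.h237.TC.CLG

/-!
# Kernels and cokernels
-/

set_option autoImplicit false
set_option linter.unusedSectionVars false
set_option linter.unusedSimpArgs false
set_option linter.unusedVariables false
set_option backward.isDefEq.respectTransparency false
set_option backward.defeqAttrib.useBackward true

open CategoryTheory Limits MonoidalCategory Pretriangulated Triangulated

namespace Run7.h985.TC.DU

open Pool.Agent.Y116.MT Pool.Agent.V1178.MT Run7.h822.MT Run7.h985.TC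

universe v u w

section

variable {C : Type u} [Category.{v} C] [Preadditive C] [HasZeroObject C] [HasShift C ℤ]
  [∀ n : ℤ, (shiftFunctor C n).Additive] [Pretriangulated C] [MonoidalCategory C]
  [SymmetricCategory C] [TensorTriangulated C] [MonoidalPreadditive C]
  {E : Type w} [Field E] {R : Realisation C E} {U : ObjectProperty C}

/-- Membership in `Cl U`, with the tensor factor on the left. -/
lemma cl_left {M F I : C} (hM : U M) (hF : U F) (v : F ⟶ 𝟙_ C) (hv : v ≠ 0) (p : M ⟶ I)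
    (s : F ⊗ I ⟶ M) (h : s ≫ p = VV v I) : Cl U I := by
  refine ⟨M, F, v, p, (β_ I F).hom ≫ s, hM, hF, hv, ?_⟩
  rw [Category.assoc, h, ← VV_braid]

/-- `VV v (W ⊗ Y)` in terms of `W ◁ VV v Y`. -/
lemma VV_whisker {F : C} (v : F ⟶ 𝟙_ C) (W Y : C) : VV v (W ⊗ Y) =
    (β_ F (W ⊗ Y)).hom ≫ (α_ W Y F).hom ≫ (W ◁ (β_ Y F).hom) ≫ (W ◁ VV v Y) := by
  rw [← MonoidalCategory.whiskerLeft_comp, ← VV_braid]
  have h4 := VV_braid v (W ⊗ Y)
  rw [← cancel_epi (β_ (W ⊗ Y) F).hom, ← h4, SymmetricCategory.symmetry_assoc]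
  simp

variable {M F P : C}

lemma Dat.tfW (D : Dat R U M F P) {W Y N : C} (hW : U W) (hY : LU U Y) (hN : U N)
    (z : W ⊗ Y ⟶ N) (hz : (W ◁ VV D.v Y) ≫ z = 0) : z = 0 := by
  apply D.tf (hY.tensor D.hU hW) hN
  rw [VV_whisker]
  simp only [Category.assoc]
  rw [hz, comp_zero, comp_zero, comp_zero]

/-- Third vertices on maps of `U` which are quasi-epimorphisms. -/
lemma Dat.canc (D : Dat R U M F P) {A I W N : C} {p : A ⟶ I} {s : F ⊗ I ⟶ A}
    (h : s ≫ p = VV D.v I) (hW : U W) (hI : LU U I) (hN : U N) (z : W ⊗ I ⟶ N)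
    (hz : (W ◁ p) ≫ z = 0) : z = 0 := by
  apply D.tfW hW hI hN
  rw [← h, MonoidalCategory.whiskerLeft_comp, Category.assoc, hz, comp_zero]

end

section

variable {C : Type u} [Category.{v} C] [Preadditive C] [HasZeroObject C] [HasShift C ℤ]
  [∀ n : ℤ, (shiftFunctor C n).Additive] [Pretriangulated C] [IsTriangulated C]
  [MonoidalCategory C]
  [SymmetricCategory C] [TensorTriangulated C] [MonoidalPreadditive C] [RightRigidCategory C]
  {E : Type w} [Field E] {R : Realisation C E} {U : ObjectProperty C}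

/-- The quasi-inverse. -/
lemma quasi (hCRU : S_CRU.{v, u, w}) (hCR2 : S_CR2.{v, u}) (hG : Good R U) (hF : FthU R U)
    {M N : C} (hM : U M) (hN : U N) (f : M ⟶ N) :
    ∃ (F : C) (v : F ⟶ 𝟙_ C) (b : F ⊗ N ⟶ M), U F ∧ v ≠ 0 ∧
      (F ◁ f) ≫ b ≫ f = VV v M ≫ f := by
  by_cases hf : f = 0
  · refine ⟨𝟙_ C, 𝟙 _, 0, hF.unit, Run7.h237.TC.unit_ne_zero R, ?_⟩
    rw [hf]
    simp
  · obtain ⟨V, W, g, A, hV, hW, hg, hA⟩ := hCRU C E R U hF M N hM hN f hf
    obtain ⟨v, b, hv, hb⟩ := hCR2 C M N V W f g A hg hA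
    refine ⟨Wᘁ ⊗ V, v, (β_ (Wᘁ ⊗ V) N).hom ≫ b, hF.tensor (hG.dual hW) hV, hv, ?_⟩
    rw [Category.assoc, BraidedCategory.braiding_naturality_right_assoc, hb,
      ← Category.assoc (M ◁ v), VV_braid, Category.assoc, SymmetricCategory.symmetry_assoc]

/-- Kernels are in `Cl U`. -/
lemma ker_mem (hCRU : S_CRU.{v, u, w}) (hCR2 : S_CR2.{v, u}) (hG : Good R U) (hF : FthU R U)
    {M F P : C} (D : Dat R U M F P) {I K : C} (hI : U I) {k : K ⟶ M} {p : M ⟶ I}
    {δ : I ⟶ K⟦(1 : ℤ)⟧} (hT : Triangle.mk k p δ ∈ distTriang C) {s : F ⊗ I ⟶ M}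
    (h : s ≫ p = VV D.v I) : Cl U K := by
  obtain ⟨F', v', b', hF', hv', hb⟩ := quasi hCRU hCR2 hG hF D.hM hI p
  have hT' := tensor_dist F' hT
  have h1 : (VV v' M - (F' ◁ p) ≫ b') ≫ p = 0 := by
    rw [Preadditive.sub_comp, Category.assoc, hb, sub_self]
  obtain ⟨pK, hpK⟩ := ce2 hT _ h1
  refine cl_left (hF.tensor hF' D.hM) hF' v' hv' pK (F' ◁ k) ?_
  rw [← sub_eq_zero]
  set d : F' ⊗ K ⟶ K := (F' ◁ k) ≫ pK - VV v' K with hd
  have h2 : d ≫ k = 0 := by
    have h3 : (F' ◁ k) ≫ (F' ◁ p) = 0 := comp12 hT'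
    rw [hd, Preadditive.sub_comp, Category.assoc, ← hpK, Preadditive.comp_sub, VV_nat,
      ← Category.assoc, h3, zero_comp, sub_zero, sub_self]
  have h3 : d⟦(1 : ℤ)⟧' ≫ k⟦(1 : ℤ)⟧' = 0 := by
    rw [← Functor.map_comp, h2, Functor.map_zero]
  obtain ⟨l, hl⟩ := ce1 hT _ h3
  have h4 : (F' ◁ δ ≫ (rShift F' K 1).hom) ≫ l = 0 := by
    apply D.canc h hF' (LU.of_mem hF hI) hI
    rw [← Category.assoc, comp23 hT', zero_comp]
  obtain ⟨m, hm⟩ := ye1 hT' l h4
  have h5 : m = 0 := hF.neg (hF.tensor hF' D.hM) hI 1 (by omega) m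
  have h6 : l = 0 := by rw [hm, h5, comp_zero]
  apply (shiftFunctor C (1 : ℤ)).map_injective
  rw [hl, h6, zero_comp, Functor.map_zero]

/-- Cokernels are in `Cl U`. -/
lemma coker_mem (hCRU : S_CRU.{v, u, w}) (hCR2 : S_CR2.{v, u}) (hG : Good R U) (hF : FthU R U)
    {I N Q : C} (hI : U I) (hN : U N) {j : I ⟶ N} {π : N ⟶ Q}
    {δ : Q ⟶ I⟦(1 : ℤ)⟧} (hT : Triangle.mk j π δ ∈ distTriang C)
    (hj : ∀ A : C, U A → ∀ x : A ⟶ I, x ≫ j = 0 → x = 0) : Cl U Q := by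
  obtain ⟨F', v', b', hF', hv', hb⟩ := quasi hCRU hCR2 hG hF hI hN j
  have hT' := tensor_dist F' hT
  have hb' : (F' ◁ j) ≫ b' = VV v' I := by
    rw [← sub_eq_zero]
    apply hj _ (hF.tensor hF' hI)
    rw [Preadditive.sub_comp, Category.assoc, hb, sub_self]
  have h1 : (F' ◁ j) ≫ (VV v' N - b' ≫ j) = 0 := by
    rw [Preadditive.comp_sub, ← Category.assoc, hb', VV_nat, sub_self]
  obtain ⟨s, hs⟩ := ye2 hT' _ h1
  refine cl_left hN hF' v' hv' π s ?_
  rw [← sub_eq_zero]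
  have h2 : (F' ◁ π) ≫ (s ≫ π - VV v' Q) = 0 := by
    rw [Preadditive.comp_sub, ← Category.assoc, ← hs, VV_nat, Preadditive.sub_comp,
      Category.assoc, comp12 hT, comp_zero, sub_zero, sub_self]
  obtain ⟨l, hl⟩ := ye3 hT' _ h2
  have h3 : l ≫ δ = 0 := by
    obtain ⟨z, hz⟩ := (shiftFunctor C (1 : ℤ)).map_surjective (l ≫ δ)
    have h4 : z ≫ j = 0 := by
      apply (shiftFunctor C (1 : ℤ)).map_injective
      rw [Functor.map_comp, hz, Category.assoc, comp31 hT, comp_zero, Functor.map_zero]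
    rw [← hz, hj _ (hF.tensor hF' hI) z h4, Functor.map_zero]
  obtain ⟨m, hm⟩ := ce3 hT l h3
  have h5 : m = 0 := hF.neg (hF.tensor hF' hI) hN 1 (by omega) m
  rw [hl, hm, h5, zero_comp, comp_zero]

end

/-- **Kernels and cokernels.** -/
theorem t_KQ (hNILC : S_NILC.{v, u, w}) (hGFT : S_GFT.{v, u, w}) (hCRU : S_CRU.{v, u, w})
    (hCR2 : S_CR2.{v, u}) : S_KQ.{v, u, w} := by
  intro C _ _ _ _ _ _ _ _ _ _ _ _ _ E _ _ R U hc hG hcl M N Z f g h hT hM hN
  have hF : FthU R U := hGFT C E R U hG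
  obtain ⟨F, v, b, hF1, hv, hb⟩ := quasi hCRU hCR2 hG hF hM hN f
  obtain ⟨P, q, w, hTv⟩ := distinguished_cocone_triangle v
  have hHv := Run7.h237.TC.H_ne hF hF1 hv
  obtain ⟨e, he⟩ := Pool.Agent.Run7.h642.TC.exists_sec v hHv
  have hP : R.Deg P (-1) :=
    Run7.h237.TC.deg_third (hF.deg hF1) (epi_of_epi_fac he) hTv
  obtain ⟨n, hn⟩ := hNILC C E R hc P q hP
  let D : Dat R U M F P :=
    { hU := hF
      hM := hM
      hF := hF1
      v := v
      q := q
      w := w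
      hT := hTv
      n := n
      hn := hn
      a := (F ◁ f) ≫ b
      ha := by
        rw [← Category.assoc, ← MonoidalCategory.whiskerLeft_comp, Category.assoc, hb,
          MonoidalCategory.whiskerLeft_comp, Category.assoc] }
  obtain ⟨I, p, s, h1, h2, h3, h4⟩ := des_left D n hn
  obtain ⟨j, hj⟩ := fac_left D h1 h2 h3 h4 hN f (by
    change ((F ◁ f) ≫ b) ≫ f = VV v M ≫ f
    rw [Category.assoc, hb])
  have hI : U I := hcl I (cl_left hM hF1 v hv p s h1)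
  -- the quasi-inverse of `p`
  have hs : s = (F ◁ j) ≫ b := by
    rw [← sub_eq_zero]
    apply D.canc h1 hF1 h3 hM
    rw [Preadditive.comp_sub, h2, ← Category.assoc, ← MonoidalCategory.whiskerLeft_comp, hj,
      sub_self]
  have hmono : ∀ A : C, U A → ∀ x : A ⟶ I, x ≫ j = 0 → x = 0 := by
    intro A hA x hx
    apply D.tf (LU.of_mem hF hA) hI
    have h5 : F ◁ (0 : A ⟶ N) = 0 := (tensorLeft F).map_zero _ _
    have h6 : VV D.v A ≫ x = (F ◁ x) ≫ s ≫ p := by rw [h1, VV_nat]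
    rw [h6, hs, Category.assoc, ← Category.assoc, ← MonoidalCategory.whiskerLeft_comp, hx, h5,
      zero_comp]
  obtain ⟨K, k, δ, hK⟩ := distinguished_cocone_triangle₁ p
  obtain ⟨Q, π, γ, hQ⟩ := distinguished_cocone_triangle j
  have hKU : U K := hcl K (ker_mem hCRU hCR2 hG hF D hI hK h1)
  have hQU : U Q := hcl Q (coker_mem hCRU hCR2 hG hF hI hN hQ hmono)
  have oct := someOctahedron hj (rotD hK) hQ hT
  exact ⟨K, Q, oct.m₁, oct.m₃, _, oct.mem, hKU, hQU⟩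

end Run7.h985.TC.DU
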