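import Pool.Agent.Run7.h985.TC.Asm3
import Pool.Agent.Run7.h985.TC.KQ
import Pool.Agent.Run7.h675.TC.W3
import Pool.Agent.Run7.h824.TC.W1

/-!
# Nilpotence for the maps to the unit from the good class instead of conservativity
-/

set_option autoImplicit false
set_option linter.unusedSectionVars false
set_option linter.unusedSimpArgs false
set_option linter.unusedVariables false
set_option backward.isDefEq.respectTransparency false
set_option backward.defeqAttrib.useBackward true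

open CategoryTheory Limits MonoidalCategory Pretriangulated Triangulated

namespace Run7.h985.TC

open Pool.Agent.Y116.MT Pool.Agent.V1178.MT Run7.h822.MT

universe v u w

section

variable {C : Type u} [Category.{v} C] [Preadditive C] [HasZeroObject C] [HasShift C ℤ]
  [∀ n : ℤ, (shiftFunctor C n).Additive] [Pretriangulated C] [MonoidalCategory C]
  [SymmetricCategory C] [TensorTriangulated C]

/-- For every triangle `F ⟶ 𝟙 ⟶ P ⟶ F⟦1⟧` with `F` in `U` and a nonzero first morphism, the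
morphism `q : 𝟙 ⟶ P` is nilpotent: `q ⊗ ⋯ ⊗ q = 0` for a large number of factors. -/
def NilFor (U : ObjectProperty C) : Prop :=
  ∀ (F P : C) (v : F ⟶ 𝟙_ C) (q : 𝟙_ C ⟶ P) (w : P ⟶ F⟦(1 : ℤ)⟧),
    Triangle.mk v q w ∈ distTriang C → U F → v ≠ 0 → ∃ n : ℕ, qp q n = 0

end

end Run7.h985.TC

namespace Run7.h985.TC.N2

open Pool.Agent.Y116.MT Pool.Agent.V1178.MT Run7.h822.MT Run7.h985.TC Run7.h237.TC

section

universe v u w

variable {C : Type u} [Category.{v} C] [Preadditive C] [HasZeroObject C] [HasShift C ℤ]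
  [∀ n : ℤ, (shiftFunctor C n).Additive] [Pretriangulated C] [MonoidalCategory C]
  [SymmetricCategory C] [TensorTriangulated C] [MonoidalPreadditive C]
  {E : Type w} [Field E] {R : Realisation C E} {U : ObjectProperty C} {M Y F P : C}

lemma cl_van (hR : FthU R U) (hN : NilFor U) {X : C}
    (hM : U M) (hF : U F) {v : F ⟶ 𝟙_ C} (hv : v ≠ 0) {p : M ⟶ X} {s : X ⊗ F ⟶ M}
    (hsp : s ≫ p = (X ◁ v) ≫ (ρ_ X).hom) (hY : Run7.h237.TC.LU U M Y) (δ : Y ⟶ X)
    (hδ : (F ◁ δ) ≫ (β_ F X).hom ≫ s = 0) : δ = 0 := by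
  obtain ⟨P, q, w, hT⟩ := distinguished_cocone_triangle v
  obtain ⟨n, hn⟩ := hN F P v q w hT hF hv
  refine descent0 hR hF hT p ((β_ F X).hom ≫ s) ?_ hY δ hδ n hn
  rw [Category.assoc, hsp, VV_braid, SymmetricCategory.symmetry_assoc]

lemma cl_zero [RightRigidCategory C] (hR : FthU R U) (hN : NilFor U) {X : C}
    (hX : Cl U X) (f : 𝟙_ C ⟶ X) (hf : R.H.map f = 0) : f = 0 := by
  obtain ⟨M, F, v, p, s, hM, hF, hv, hsp⟩ := hX
  refine cl_van hR hN hM hF hv hsp (LU.of hR hM hR.unit) f ?_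
  apply hR.zero (hR.tensor hF hR.unit) hM
  rw [← Category.assoc, BraidedCategory.braiding_naturality_right, Category.assoc,
    Functor.map_comp, Functor.map_comp, map_whisker_zero deg_unit f hf F, zero_comp, comp_zero]

lemma cl_neg (hR : FthU R U) (hN : NilFor U) {X : C}
    (hX : Cl U X) {n : ℤ} (f : 𝟙_ C ⟶ X⟦-n⟧) (hn : 0 < n) : f = 0 := by
  obtain ⟨M, F, v, p, s, hM, hF, hv, hsp⟩ := hX
  let e : (X⟦-n⟧)⟦n⟧ ≅ X := (shiftFunctorCompIsoId C (-n) n (by omega)).app X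
  have h1 : f⟦n⟧' ≫ e.hom = 0 := by
    refine cl_van hR hN hM hF hv hsp (LU.of_shift hR hM hR.unit hn.le) _ ?_
    rw [← cancel_epi (rShift F (𝟙_ C) n).inv, comp_zero]
    exact hR.neg (hR.tensor hF hR.unit) hM n hn _
  apply (shiftFunctor C n).map_injective
  rw [← cancel_mono e.hom, h1, Functor.map_zero, zero_comp]

/-- Powers of a composition. -/
lemma qp_comp {P P' : C} (q : 𝟙_ C ⟶ P) (θ : P ⟶ P') (n : ℕ) :
    ∃ Θ : pw (𝟙_ C) P n ⟶ pw (𝟙_ C) P' n, qp (q ≫ θ) n = qp q n ≫ Θ := by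
  induction n with
  | zero => exact ⟨𝟙 _, by simp [qp]⟩
  | succ n ih =>
    obtain ⟨Θ, h⟩ := ih
    refine ⟨(Θ ▷ P) ≫ (pw (𝟙_ C) P' n ◁ θ), ?_⟩
    rw [qp, qp, h, MonoidalCategory.whiskerLeft_comp]
    simp only [Category.assoc]
    rw [whisker_exchange_assoc, rightUnitor_inv_naturality_assoc]

/-- Nilpotence passes to `Cl U`. -/
lemma nil_cl (hR : FthU R U) (hR' : FthU R (Cl U)) (hN : NilFor U) : NilFor (Cl U) := by
  intro I P' v' q' w' hT' hI hv'
  obtain ⟨M, F, v, p, s, hM, hF, hv, hsp⟩ := hI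
  have hI' : Cl U I := ⟨M, F, v, p, s, hM, hF, hv, hsp⟩
  have h1 : R.H.map v' ≠ 0 := fun h => hv' (hR'.zero hI' hR'.unit v' h)
  have hp : Epi (R.H.map p) := epi_p (H_ne hR hF hv) hsp
  have h2 : p ≫ v' ≠ 0 := by
    intro h0
    apply h1
    rw [← cancel_epi (R.H.map p), ← Functor.map_comp, h0, Functor.map_zero, comp_zero]
  obtain ⟨P, q, w, hT⟩ := distinguished_cocone_triangle (p ≫ v')
  obtain ⟨n, hn⟩ := hN M P (p ≫ v') q w hT hM h2
  obtain ⟨θ, hθ⟩ := ye2 hT q' (by rw [Category.assoc, comp12 hT', comp_zero])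
  obtain ⟨Θ, hΘ⟩ := qp_comp q θ n
  exact ⟨n, by rw [hθ, hΘ, hn, zero_comp]⟩

/-- A map of realisation zero from an object in a low degree vanishes. -/
lemma low_zero (hF : FthU R U) {l : List ℤ} {X : C} (h : Wd U l X) (i : ℤ)
    (hl : ∀ j ∈ l, i ≤ j) {A : C} (hA : U (A⟦i⟧)) (g : A ⟶ X)
    (hg : R.H.map (g⟦i⟧') = 0) : g = 0 := by
  induction h with
  | nil hX => exact hX.eq_of_tgt _ _
  | @cons j l B X X' f g' h hT hB hX' ih =>
    have hl' : ∀ k ∈ l, i ≤ k := fun k hk => hl k (List.mem_cons_of_mem _ hk)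
    have h1 : g ≫ g' = 0 := ih hl' _ (by
      rw [Functor.map_comp, Functor.map_comp, hg, zero_comp])
    obtain ⟨m, rfl⟩ := ce2 hT g h1
    have hij : i ≤ j := hl j List.mem_cons_self
    rcases hij.eq_or_lt with h2 | h2
    · subst h2
      have h3 : IsZero (R.H.obj (X'⟦i - 1⟧)) :=
        (Run7.h675.TC.wd_high hF hX' (i - 1) (fun k hk => by have := hl' k hk; omega)).2 _ le_rfl
      have h4 : Mono (R.H.map (f⟦i⟧')) := hmono1 R.H hT i h3
      have h5 : R.H.map (m⟦i⟧') = 0 := by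
        rw [← cancel_mono (R.H.map (f⟦i⟧')), ← Functor.map_comp, ← Functor.map_comp, hg, zero_comp]
      have h6 : m⟦i⟧' = 0 := hF.zero hA hB _ h5
      have h7 : m = 0 := by
        apply (shiftFunctor C i).map_injective
        rw [h6, Functor.map_zero]
      rw [h7, zero_comp]
    · rw [Run7.h824.TC.fthU_lt hF hA hB h2 m, zero_comp]

/-- Idempotents of realisation zero vanish. -/
lemma idem_zero (hF : FthU R U) {l : List ℤ} {X : C} (h : Wd U l X)
    (hs : l.Pairwise (· ≤ ·)) (e : X ⟶ X) (he : e ≫ e = e)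
    (hR : ∀ k : ℤ, R.H.map (e⟦k⟧') = 0) : e = 0 := by
  induction h with
  | nil hX => exact hX.eq_of_tgt _ _
  | @cons i l B X X' f g h hT hB hX' ih =>
    obtain ⟨hs1, hs2⟩ := List.pairwise_cons.1 hs
    have h1 : f ≫ e = 0 := by
      refine low_zero hF (.cons f g h hT hB hX') i ?_ hB _ ?_
      · intro j hj
        rcases List.mem_cons.1 hj with rfl | hj
        · exact le_rfl
        · exact hs1 j hj
      · rw [Functor.map_comp, Functor.map_comp, hR, comp_zero]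
    obtain ⟨e₁, he₁⟩ := ye2 hT e h1
    have h2 : ∀ k : ℤ, R.H.map (e₁⟦k⟧') = 0 := by
      intro k
      by_cases hk : k + 1 = i
      · have h3 : IsZero (R.H.obj (X'⟦k⟧)) :=
          (Run7.h675.TC.wd_high hF hX' k (fun j hj => by have := hs1 j hj; omega)).2 _ le_rfl
        exact h3.eq_of_src _ _
      · have h3 : IsZero (R.H.obj (B⟦k + 1⟧)) :=
          Run7.h675.TC.hdeg hF (Run7.h675.TC.V.of hB) hk
        have h4 : Epi (R.H.map (g⟦k⟧')) := hepi2 R.H hT k h3
        rw [← cancel_epi (R.H.map (g⟦k⟧')), ← Functor.map_comp, ← Functor.map_comp, ← he₁, hR,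
          comp_zero]
    have hgg : g ≫ e₁ ≫ g ≫ e₁ = g ≫ e₁ := by
      have := he
      rw [he₁] at this
      simpa only [Category.assoc] using this
    have h5 : e₁ ≫ g ≫ e₁ ≫ g = 0 := by
      apply ih hs2
      · calc (e₁ ≫ g ≫ e₁ ≫ g) ≫ (e₁ ≫ g ≫ e₁ ≫ g) =
            e₁ ≫ (g ≫ e₁ ≫ g ≫ e₁) ≫ g ≫ e₁ ≫ g := by simp only [Category.assoc]
          _ = e₁ ≫ (g ≫ e₁) ≫ g ≫ e₁ ≫ g := by rw [hgg]
          _ = e₁ ≫ (g ≫ e₁ ≫ g ≫ e₁) ≫ g := by simp only [Category.assoc]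
          _ = e₁ ≫ (g ≫ e₁) ≫ g := by rw [hgg]
          _ = e₁ ≫ g ≫ e₁ ≫ g := by simp only [Category.assoc]
      · intro k
        rw [Functor.map_comp, Functor.map_comp, h2, zero_comp]
    rw [he₁, ← hgg]
    calc g ≫ e₁ ≫ g ≫ e₁ = (g ≫ e₁ ≫ g ≫ e₁) ≫ g ≫ e₁ := by
          rw [hgg]
          simp only [Category.assoc]
          exact hgg.symm
      _ = g ≫ (e₁ ≫ g ≫ e₁ ≫ g) ≫ e₁ := by simp only [Category.assoc]
      _ = 0 := by rw [h5, zero_comp, comp_zero]

/-- Conservativity. -/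
lemma cons_of_wd (hF : FthU R U) (hX : ∀ X : C, ∃ (l : List ℤ) (X' : C) (i : X ⟶ X')
    (r : X' ⟶ X), i ≫ r = 𝟙 X ∧ l.Pairwise (· ≤ ·) ∧ Wd U l X') : Conservative R := by
  intro X h0
  obtain ⟨l, X', i, r, hir, hs, hW⟩ := hX X
  have he : r ≫ i = 0 := by
    apply idem_zero hF hW hs
    · rw [Category.assoc, ← Category.assoc i, hir, Category.id_comp]
    · intro k
      rw [Functor.map_comp, Functor.map_comp, (h0 k).eq_of_tgt (R.H.map (r⟦k⟧')) 0, zero_comp]
  rw [IsZero.iff_id_eq_zero, ← hir]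
  calc i ≫ r = i ≫ (r ≫ i) ≫ r := by rw [Category.assoc, hir, Category.comp_id, hir]
    _ = 0 := by rw [he, zero_comp, comp_zero]

end

section

universe v u w

variable {C : Type u} [Category.{v} C] [Preadditive C] [HasZeroObject C] [HasShift C ℤ]
  [∀ n : ℤ, (shiftFunctor C n).Additive] [Pretriangulated C] [IsTriangulated C]
  [MonoidalCategory C] [SymmetricCategory C] [TensorTriangulated C] [MonoidalPreadditive C]
  [RightRigidCategory C]
  {E : Type w} [Field E] {R : Realisation C E} {U : ObjectProperty C}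

/-- `Cl U` is good. -/
lemma good_cl (hR : FthU R U) (hG : Good R U) (hN : NilFor U) : Good R (Cl U) :=
  { unit := le_cl hR _ hG.unit
    tensor := fun hX hY => cl_tensor hR hX hY
    dual := fun hX => cl_dual hG hX
    deg := fun hX => by
      obtain ⟨M, F, v, p, s, hM, hF, hv, hsp⟩ := hX
      exact deg_cl (hR.deg hM) (H_ne hR hF hv) hsp
    zero := fun f hX hf => cl_zero hR hN hX f hf
    neg := fun n f hX hn => cl_neg hR hN hX f hn }

/-- Kernels and cokernels. -/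
lemma kq [IsIdempotentComplete C] (hCRU : S_CRU.{v, u, w}) (hCR2 : S_CR2.{v, u})
    (hF : FthU R U) (hG : Good R U) (hN : NilFor U) (hcl : ∀ X, Cl U X → U X) : HasKQ U := by
  intro M N Z f g h hT hM hN1
  obtain ⟨F, v, b, hF1, hv, hb⟩ := DU.quasi hCRU hCR2 hG hF hM hN1 f
  obtain ⟨P, q, w, hTv⟩ := distinguished_cocone_triangle v
  obtain ⟨n, hn⟩ := hN F P v q w hTv hF1 hv
  let D : DU.Dat R U M F P :=
    { hU := hF
      hM := hM
      hF := hF1
      v := v
      q := q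
      w := w
      hT := hTv
      n := n
      hn := hn
      a := (F ◁ f) ≫ b
      ha := by
        rw [← Category.assoc, ← MonoidalCategory.whiskerLeft_comp, Category.assoc, hb,
          MonoidalCategory.whiskerLeft_comp, Category.assoc] }
  obtain ⟨I, p, s, h1, h2, h3, h4⟩ := DU.des_left D n hn
  obtain ⟨j, hj⟩ := DU.fac_left D h1 h2 h3 h4 hN1 f (by
    change ((F ◁ f) ≫ b) ≫ f = VV v M ≫ f
    rw [Category.assoc, hb])
  have hI : U I := hcl I (DU.cl_left hM hF1 v hv p s h1)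
  have hs : s = (F ◁ j) ≫ b := by
    rw [← sub_eq_zero]
    apply D.canc h1 hF1 h3 hM
    rw [Preadditive.comp_sub, h2, ← Category.assoc, ← MonoidalCategory.whiskerLeft_comp, hj,
      sub_self]
  have hmono : ∀ A : C, U A → ∀ x : A ⟶ I, x ≫ j = 0 → x = 0 := by
    intro A hA x hx
    apply D.tf (DU.LU.of_mem hF hA) hI
    have h5 : F ◁ (0 : A ⟶ N) = 0 := (tensorLeft F).map_zero _ _
    have h6 : VV D.v A ≫ x = (F ◁ x) ≫ s ≫ p := by rw [h1, VV_nat]
    rw [h6, hs, Category.assoc, ← Category.assoc, ← MonoidalCategory.whiskerLeft_comp, hx, h5,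
      zero_comp]
  obtain ⟨K, k, δ, hK⟩ := distinguished_cocone_triangle₁ p
  obtain ⟨Q, π, γ, hQ⟩ := distinguished_cocone_triangle j
  have hKU : U K := hcl K (DU.ker_mem hCRU hCR2 hG hF D hI hK h1)
  have hQU : U Q := hcl Q (DU.coker_mem hCRU hCR2 hG hF hI hN1 hQ hmono)
  have oct := someOctahedron hj (rotD hK) hQ hT
  exact ⟨K, Q, oct.m₁, oct.m₃, _, oct.mem, hKU, hQU⟩

/-- Truncations and conservativity from a good class of generators with nilpotence. -/
theorem trunc_good [IsIdempotentComplete C] (hGFT : S_GFT.{v, u, w}) (hCRU : S_CRU.{v, u, w})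
    (hCR2 : S_CR2.{v, u}) (hW1 : S_W1.{v, u, w}) (hW2 : S_W2.{v, u}) (hW3 : S_W3.{v, u, w})
    {S : ObjectProperty C} (hS : Good R S) (hN : NilFor S)
    (hG : ∀ P : ObjectProperty C, IsThick P → (∀ X, S X → P X) → ∀ X, P X) :
    Conservative R ∧ ∀ X : C, ∃ (A : C) (f : A ⟶ X), LooksLikeTruncation R f := by
  have hF0 := hGFT C E R S hS
  have hU := good_cl hF0 hS hN
  have hF := hGFT C E R (Cl S) hU
  have hNU := nil_cl hF0 hF hN
  have hiso : ∀ X Y : C, Cl S X → Nonempty (X ≅ Y) → Cl S Y := fun X Y hX ⟨e⟩ => hX.iso e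
  have hK : HasKQ (Cl S) := kq hCRU hCR2 hF hU hNU fun X hX => cl_cl hF0 hF hX
  have hX : ∀ X : C, ∃ (l : List ℤ) (X' : C) (i : X ⟶ X') (r : X' ⟶ X), i ≫ r = 𝟙 X ∧
      l.Pairwise (· ≤ ·) ∧ Wd (Cl S) l X' := by
    intro X
    obtain ⟨l, X', i, r, hir, hX'⟩ := hW2 C (Cl S) hiso
      (fun P hP h => hG P hP fun X hX => h X (le_cl hF0 X hX)) X
    obtain ⟨l', hl', hX''⟩ := hW1 C E R (Cl S) hF hiso hK l X' hX'
    exact ⟨l', X', i, r, hir, hl', hX''⟩
  exact ⟨cons_of_wd hF hX, hW3 C E R (Cl S) hF hX⟩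

/-- The criterion with a good class of generators and nilpotence. -/
theorem five [IsIdempotentComplete C] (hid : ∀ e : 𝟙_ C ⟶ 𝟙_ C, e ≫ e = e → e = 0 ∨ e = 𝟙 _)
    [CharZero E] (hDUAL : S_DUAL.{v, u, w}) (hCNV : S_CNV.{v, u, w})
    (hNILC : S_NILC.{v, u, w}) (hGFT : S_GFT.{v, u, w}) (hCRU : S_CRU.{v, u, w})
    (hCR2 : S_CR2.{v, u}) (hW1 : S_W1.{v, u, w}) (hW2 : S_W2.{v, u}) (hW3 : S_W3.{v, u, w})
    (R : Realisation C E) :
    (∃ t : TStructure C, IsMotivic t (fun _ : Unit => R)) ↔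
      ∃ S : ObjectProperty C, Good R S ∧ NilFor S ∧
        ∀ P : ObjectProperty C, IsThick P → (∀ X, S X → P X) → ∀ X, P X := by
  constructor
  · rintro ⟨t, ht⟩
    obtain ⟨hI, hG⟩ := hCNV C hid E R t ht
    have hc := (truncations_of_motivic hid ht).1
    have hgood : Good R (fun X => R.Deg X 0) :=
      { unit := deg_unit
        tensor := fun hX hY => by simpa using hX.tensor hY
        dual := fun {X} hX => hDUAL C E R X hX
        deg := fun hX => hX
        zero := fun {X} f hX hf => hI.zero X f hX hf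
        neg := fun {X} n f hX hn => hI.neg X n f hX hn }
    refine ⟨fun X => R.Deg X 0, hgood, ?_, hG⟩
    intro F P v q w hT hF hv
    have hFt := hGFT C E R _ hgood
    obtain ⟨e, he⟩ := Pool.Agent.Run7.h642.TC.exists_sec v (H_ne hFt hF hv)
    exact hNILC C E R hc P q (deg_third hF (epi_of_epi_fac he) hT)
  · rintro ⟨S, hS, hN, hG⟩
    obtain ⟨hc, htr⟩ := trunc_good hGFT hCRU hCR2 hW1 hW2 hW3 hS hN hG
    exact ⟨tOf R hc htr, motivic_tOf hc htr⟩

end

end Run7.h985.TC.N2
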