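import Pool.Agent.Run7.h985.TC.Crit
import Pool.Agent.Run7.h985.TC.Nil2

/-!
# Comparison of the definitions with the working definitions of the proof
-/

set_option autoImplicit false
set_option backward.isDefEq.respectTransparency false
set_option backward.defeqAttrib.useBackward true

open CategoryTheory Limits MonoidalCategory Pretriangulated Triangulated

namespace Run7.h985.Crit

open Pool.Agent.Y116.MT Pool.Agent.V1178.MT Run7.h822.MT

universe v u w

section

variable {C : Type u} [Category.{v} C] [Preadditive C] [HasZeroObject C] [HasShift C ℤ]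
  [∀ n : ℤ, (shiftFunctor C n).Additive] [Pretriangulated C] [MonoidalCategory C]
  [SymmetricCategory C] [TensorTriangulated C] {E : Type w} [Field E] {R : Realisation C E}

lemma inj_iff : Injective R (DegZero R) ↔ TC.Inj R :=
  ⟨fun h => ⟨h.zero, h.neg⟩, fun h => ⟨h.zero, h.neg⟩⟩

lemma isSum_iff {X : C} : IsSum R X ↔ TC.IsSum R X := by
  constructor
  · intro h
    induction h with
    | one a hX => exact .one a hX
    | sum iA rA iB rB hA hB h _ _ ihA ihB => exact .sum iA rA iB rB hA hB h ihA ihB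
  · intro h
    induction h with
    | one a hX => exact .one a hX
    | sum iA rA iB rB hA hB h _ _ ihA ihB => exact .sum iA rA iB rB hA hB h ihA ihB

lemma good_iff [RightRigidCategory C] {S : ObjectProperty C} : Good R S ↔ TC.Good R S :=
  ⟨fun h => ⟨h.unit, h.tensor, h.dual, h.deg, fun {X} f hX => h.injective.zero X f hX,
      fun {X} n f hX => h.injective.neg X n f hX⟩,
    fun h => ⟨h.unit, h.tensor, h.dual, h.deg, ⟨fun _ f hX => h.zero f hX,
      fun _ n f hX => h.neg n f hX⟩⟩⟩

lemma qpow_iso {P : C} (q : 𝟙_ C ⟶ P) (n : ℕ) :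
    ∃ e : pw (𝟙_ C) P n ≅ twist P (𝟙_ C) n, TC.qp q n ≫ e.hom = qpow q n := by
  induction n with
  | zero => exact ⟨Iso.refl _, Category.comp_id _⟩
  | succ n ih =>
    obtain ⟨e, he⟩ := ih
    refine ⟨whiskerRightIso e P, ?_⟩
    change (TC.qp q n ≫ (ρ_ (pw (𝟙_ C) P n)).inv ≫ (pw (𝟙_ C) P n ◁ q)) ≫ (e.hom ▷ P) =
      (λ_ (𝟙_ C)).inv ≫ (qpow q n ⊗ₘ q)
    rw [← he, MonoidalCategory.tensorHom_def, comp_whiskerRight]
    simp only [Category.assoc]
    rw [whisker_exchange, unitors_inv_equal, ← rightUnitor_inv_naturality_assoc,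
      ← rightUnitor_inv_naturality_assoc, ← rightUnitor_inv_naturality_assoc]

lemma nilpotent_iff {S : ObjectProperty C} : Nilpotent S ↔ TC.NilFor S := by
  have h : ∀ {P : C} (q : 𝟙_ C ⟶ P) (n : ℕ), qpow q n = 0 ↔ TC.qp q n = 0 := by
    intro P q n
    obtain ⟨e, he⟩ := qpow_iso q n
    rw [← he]
    constructor
    · intro h0
      rw [← cancel_mono e.hom, h0, zero_comp]
    · intro h0
      rw [h0, zero_comp]
  constructor
  · intro hN F P v q w hT hF hv
    obtain ⟨n, hn⟩ := hN F P v q w hT hF hv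
    exact ⟨n, (h q n).1 hn⟩
  · intro hN F P v q w hT hF hv
    obtain ⟨n, hn⟩ := hN F P v q w hT hF hv
    exact ⟨n, (h q n).2 hn⟩

end

end Run7.h985.Crit
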