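import Pool.Agent.Run7.h985.TC.Stm3
import Pool.Agent.Run7.h985.TC.DES

/-!
# Descent relative to a class of objects, with the factorisation property
-/

set_option autoImplicit false
set_option linter.unusedSectionVars false
set_option linter.unusedSimpArgs false
set_option backward.isDefEq.respectTransparency false
set_option backward.defeqAttrib.useBackward true

open CategoryTheory Limits MonoidalCategory Pretriangulated Triangulated

namespace Run7.h985.TC.DU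

open Pool.Agent.Y116.MT Pool.Agent.V1178.MT Run7.h822.MT Run7.h985.TC

universe v u w

section

variable {C : Type u} [Category.{v} C] [Preadditive C] [HasZeroObject C] [HasShift C ℤ]
  [∀ n : ℤ, (shiftFunctor C n).Additive] [Pretriangulated C] [MonoidalCategory C]
  [SymmetricCategory C] [TensorTriangulated C] [MonoidalPreadditive C]

lemma unshift {M : C} {j : ℤ} {A : C} (hA : Zm M j (A⟦(1 : ℤ)⟧)) : Zm M (j + 1) A := by
  intro k hk g
  let e : M⟦-(k - 1)⟧ ≅ (M⟦-k⟧)⟦(1 : ℤ)⟧ := (shiftFunctorAdd' C (-k) 1 (-(k - 1)) (by omega)).app M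
  apply (shiftFunctor C (1 : ℤ)).map_injective
  rw [← cancel_mono e.inv, hA (k - 1) (by omega) (g⟦(1 : ℤ)⟧' ≫ e.inv), Functor.map_zero,
    zero_comp]

lemma lt_iso {M : C} {j : ℤ} {A B : C} (c : A ⟶ B) (r : B ⟶ A) (h : c ≫ r = 𝟙 A)
    (hB : Zm M j B) : Zm M j A := by
  intro k hk g
  have h1 : r ≫ g = 0 := hB k hk _
  calc g = (c ≫ r) ≫ g := by rw [h, Category.id_comp]
    _ = 0 := by rw [Category.assoc, h1, comp_zero]

variable {E : Type w} [Field E] {R : Realisation C E} {U : ObjectProperty C}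

/-- The class of the objects without negative maps to objects of `U`, also after tensoring with
objects of `U`. -/
def LU (U : ObjectProperty C) (Y : C) : Prop := ∀ W : C, U W → ∀ N : C, U N → Zm N 1 (W ⊗ Y)

lemma LU.tensor (hU : FthU R U) {Y : C} (hY : LU U Y) {W : C} (hW : U W) : LU U (W ⊗ Y) := by
  intro W' hW' N hN
  exact (hY (W' ⊗ W) (hU.tensor hW' hW) N hN).iso (α_ W' W Y)

lemma LU.iso {Y Y' : C} (e : Y ≅ Y') (hY : LU U Y) : LU U Y' := fun W hW N hN =>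
  (hY W hW N hN).iso (whiskerLeftIso W e)

lemma LU.retract {Y Y' : C} (c : Y' ⟶ Y) (r : Y ⟶ Y') (h : c ≫ r = 𝟙 Y') (hY : LU U Y) :
    LU U Y' := fun W hW N hN =>
  lt_iso (W ◁ c) (W ◁ r) (by rw [← MonoidalCategory.whiskerLeft_comp, h,
    MonoidalCategory.whiskerLeft_id]) (hY W hW N hN)

lemma LU.third {A B D : C} {f : A ⟶ B} {g : B ⟶ D} {h : D ⟶ A⟦(1 : ℤ)⟧}
    (hT : Triangle.mk f g h ∈ distTriang C) (hA : LU U A) (hB : LU U B) : LU U D :=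
  fun W hW N hN => Zm.third (tensor_dist W hT) ((hA W hW N hN).mono (by omega)) (hB W hW N hN)

lemma LU.of_mem (hU : FthU R U) {Y : C} (hY : U Y) : LU U Y := by
  intro W hW N hN k hk g
  let e : (N⟦-k⟧)⟦k⟧ ≅ N := (shiftFunctorCompIsoId C (-k) k (by omega)).app N
  have h1 : g⟦k⟧' ≫ e.hom = 0 :=
    hU.neg (hU.tensor hW hY) hN k (by omega) _
  apply (shiftFunctor C k).map_injective
  rw [← cancel_mono e.hom, h1, Functor.map_zero, zero_comp]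

/-- The data. -/
structure Dat (R : Realisation C E) (U : ObjectProperty C) (M F P : C) where
  hU : FthU R U
  hM : U M
  hF : U F
  v : F ⟶ 𝟙_ C
  q : 𝟙_ C ⟶ P
  w : P ⟶ F⟦(1 : ℤ)⟧
  hT : Triangle.mk v q w ∈ distTriang C
  n : ℕ
  hn : qp q n = 0
  a : F ⊗ M ⟶ M
  ha : (F ◁ a) ≫ a = (F ◁ VV v M) ≫ a

variable {M F P : C}

lemma Dat.tensor_F (D : Dat R U M F P) {Y : C} (hY : LU U Y) : LU U (Y ⊗ F) :=
  (hY.tensor D.hU D.hF).iso (β_ F Y)

lemma Dat.tensor_P (D : Dat R U M F P) {Y : C} (hY : LU U Y) : LU U (Y ⊗ P) :=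
  LU.third (tensor_dist Y D.hT) (D.tensor_F hY) (hY.iso (ρ_ Y).symm)

lemma Dat.tensor_pw (D : Dat R U M F P) {Y : C} (hY : LU U Y) (k : ℕ) :
    LU U (Y ⊗ pw (𝟙_ C) P k) := by
  induction k with
  | zero => exact hY.iso (ρ_ Y).symm
  | succ k ih => exact (D.tensor_P ih).iso (α_ _ _ _)

/-- The tower for the torsion freeness. -/
lemma Dat.tor (D : Dat R U M F P) {A N : C} (hA : LU U A) (hN : U N) (x : A ⟶ N)
    (hx : VV D.v A ≫ x = 0) (k : ℕ) : ∃ y : A ⊗ pw (𝟙_ C) P k ⟶ N,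
      VV D.v (A ⊗ pw (𝟙_ C) P k) ≫ y = 0 ∧ (ρ_ A).inv ≫ (A ◁ qp D.q k) ≫ y = x := by
  induction k with
  | zero =>
    refine ⟨(ρ_ A).hom ≫ x, ?_, ?_⟩
    · change VV D.v (A ⊗ 𝟙_ C) ≫ (ρ_ A).hom ≫ x = 0
      rw [← Category.assoc, ← VV_nat, Category.assoc, hx, comp_zero]
    · simp [qp]
  | succ k ih =>
    obtain ⟨y, h1, h2⟩ := ih
    let Y' : C := A ⊗ pw (𝟙_ C) P k
    have hY' : LU U Y' := D.tensor_pw hA k
    have h3 : (Y' ◁ D.v) ≫ ((ρ_ Y').hom ≫ y) = 0 := by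
      rw [← Category.assoc, VV_braid, Category.assoc, h1, comp_zero]
    have hT' := tensor_dist Y' D.hT
    obtain ⟨l, hl⟩ := ye2 hT' _ h3
    have h5 : VV D.v (Y' ⊗ P) ≫ l = 0 := by
      have h6 : (F ◁ (Y' ◁ D.q)) ≫ (VV D.v (Y' ⊗ P) ≫ l) = 0 := by
        rw [← Category.assoc, VV_nat, Category.assoc, ← hl, ← Category.assoc, ← VV_nat,
          Category.assoc, h1, comp_zero]
      obtain ⟨m, hm⟩ := ye3 (tensor_dist F hT') _ h6
      have h7 : Zm N 0 ((F ⊗ (Y' ⊗ F))⟦(1 : ℤ)⟧) := Zm.shift ((D.tensor_F hY') F D.hF N hN)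
      rw [hm, h7.zero m, comp_zero]
    refine ⟨(α_ A (pw (𝟙_ C) P k) P).inv ≫ l, ?_, ?_⟩
    · change VV D.v (A ⊗ (pw (𝟙_ C) P k ⊗ P)) ≫ (α_ A (pw (𝟙_ C) P k) P).inv ≫ l = 0
      rw [← Category.assoc, ← VV_nat, Category.assoc, h5, comp_zero]
    · have h4 : (ρ_ A).inv ≫ (A ◁ qp D.q (k + 1)) ≫ (α_ A (pw (𝟙_ C) P k) P).inv ≫ l =
          (ρ_ A).inv ≫ (A ◁ qp D.q k) ≫ (ρ_ Y').inv ≫ (Y' ◁ D.q) ≫ l := by
        simp only [qp, MonoidalCategory.whiskerLeft_comp, Category.assoc, Y']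
        congr 2
        simp
      rw [h4, ← hl]
      simp only [Iso.inv_hom_id_assoc]
      exact h2

/-- Torsion freeness. -/
lemma Dat.tf (D : Dat R U M F P) {A N : C} (hA : LU U A) (hN : U N) (x : A ⟶ N)
    (hx : VV D.v A ≫ x = 0) : x = 0 := by
  obtain ⟨y, _, h2⟩ := D.tor hA hN x hx D.n
  have h3 : A ◁ (0 : 𝟙_ C ⟶ pw (𝟙_ C) P D.n) = 0 := (tensorLeft A).map_zero _ _
  rw [← h2, D.hn, h3, zero_comp, comp_zero]

lemma Dat.zero_P (D : Dat R U M F P) {Y : C} (hY : LU U Y) {W : C} (hW : U W) {N : C}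
    (hN : U N) : Zm N 0 (W ⊗ (Y ⊗ P)) := by
  have hT := tensor_dist W (tensor_dist Y D.hT)
  have hF : Zm N 0 ((W ⊗ (Y ⊗ F))⟦(1 : ℤ)⟧) := Zm.shift ((D.tensor_F hY) W hW N hN)
  have hA : LU U (W ⊗ (Y ⊗ 𝟙_ C)) := (hY.iso (ρ_ Y).symm).tensor D.hU hW
  intro k hk g
  have h0 : (W ◁ (Y ◁ D.q)) ≫ g = 0 := by
    rcases hk.eq_or_lt with h | h
    · subst h
      let e : N⟦(-0 : ℤ)⟧ ≅ N := (shiftFunctorZero' C (-0 : ℤ) (by simp)).app N
      rw [← cancel_mono e.hom, zero_comp]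
      apply D.tf hA hN
      have h1 : (W ◁ (Y ◁ D.v)) ≫ (W ◁ (Y ◁ D.q)) = 0 := comp12 hT
      have h3 : VV D.v (W ⊗ (Y ⊗ 𝟙_ C)) = (F ◁ (W ◁ (ρ_ Y).hom)) ≫ (β_ F (W ⊗ Y)).hom ≫
          (α_ W Y F).hom ≫ (W ◁ (Y ◁ D.v)) := by
        rw [← cancel_mono (W ◁ (ρ_ Y).hom), ← VV_nat]
        simp only [Category.assoc]
        congr 1
        have h4 := VV_braid D.v (W ⊗ Y)
        rw [← cancel_epi (β_ (W ⊗ Y) F).hom, ← h4, SymmetricCategory.symmetry_assoc]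
        simp
      rw [h3]
      simp only [Category.assoc]
      rw [← Category.assoc (W ◁ Y ◁ D.v), h1, zero_comp, comp_zero, comp_zero, comp_zero]
    · exact (hY.iso (ρ_ Y).symm) W hW N hN k (by omega) _
  obtain ⟨m, hm⟩ := ye3 hT g h0
  rw [hm, hF k hk m, comp_zero]

/-- The isomorphism `W ⊗ (Y ⊗ P) ≅ (W ⊗ (Y ⊗ K))⟦1⟧` with `K = P⟦-1⟧`. -/
noncomputable def wyp (W Y P : C) : W ⊗ (Y ⊗ P) ≅ (W ⊗ (Y ⊗ P⟦(-1 : ℤ)⟧))⟦(1 : ℤ)⟧ :=
  (whiskerLeftIso W (whiskerLeftIso Y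
      ((shiftFunctorCompIsoId C (-1 : ℤ) 1 (by omega)).app P).symm ≪≫
    rShift Y (P⟦(-1 : ℤ)⟧) 1)) ≪≫ rShift W (Y ⊗ P⟦(-1 : ℤ)⟧) 1

lemma Dat.tensor_K (D : Dat R U M F P) {Y : C} (hY : LU U Y) : LU U (Y ⊗ P⟦(-1 : ℤ)⟧) :=
  fun W hW _ hN => unshift (j := 0) ((D.zero_P hY hW hN).iso (wyp W Y P))

/-- The stages of the tower. -/
structure TW (D : Dat R U M F P) where
  X : C
  p : M ⟶ X
  s : F ⊗ X ⟶ M
  hps : (F ◁ p) ≫ s = D.a
  hL : LU U X
  inj : ∀ W : C, U W → ∀ g : W ⊗ X ⟶ M, (W ◁ p) ≫ g = 0 → g = 0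

lemma TW.inj2 {D : Dat R U M F P} (T : TW D) (g : F ⊗ (F ⊗ T.X) ⟶ M)
    (h : (F ◁ (F ◁ T.p)) ≫ g = 0) : g = 0 := by
  have h1 := T.inj (F ⊗ F) (D.hU.tensor D.hF D.hF) ((α_ F F T.X).hom ≫ g) (by
    have h2 : ((F ⊗ F) ◁ T.p) ≫ (α_ F F T.X).hom = (α_ F F M).hom ≫ (F ◁ (F ◁ T.p)) := by simp
    rw [← Category.assoc, h2, Category.assoc, h, comp_zero])
  rw [← cancel_epi (α_ F F T.X).hom, h1, comp_zero]

lemma TW.vs {D : Dat R U M F P} (T : TW D) : (F ◁ T.s) ≫ D.a = (F ◁ VV D.v T.X) ≫ T.s := by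
  rw [← sub_eq_zero]
  apply T.inj2
  rw [Preadditive.comp_sub, ← MonoidalCategory.whiskerLeft_comp_assoc,
    ← MonoidalCategory.whiskerLeft_comp_assoc, T.hps, VV_nat, MonoidalCategory.whiskerLeft_comp,
    Category.assoc, T.hps, D.ha, sub_self]

lemma TW.next {D : Dat R U M F P} (T : TW D) : ∃ (T' : TW D) (i : T.X ⟶ T'.X),
    T.p ≫ i = T'.p ∧ (F ◁ i) ≫ T'.s = T.s ∧ VV D.v T.X ≫ i = T.s ≫ T.p ≫ i := by
  let κ : F ⊗ T.X ⟶ T.X := VV D.v T.X - T.s ≫ T.p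
  obtain ⟨X', i, d, hT⟩ := distinguished_cocone_triangle κ
  have hF := tensor_dist F hT
  have h0 : (F ◁ κ) ≫ T.s = 0 := by
    have h1 : F ◁ κ = F ◁ VV D.v T.X - F ◁ (T.s ≫ T.p) := (tensorLeft F).map_sub
    rw [h1, Preadditive.sub_comp, MonoidalCategory.whiskerLeft_comp, Category.assoc, T.hps,
      T.vs, sub_self]
  obtain ⟨s', hs'⟩ := ye2 hF T.s h0
  refine ⟨⟨X', T.p ≫ i, s', ?_, ?_, ?_⟩, i, rfl, hs'.symm, ?_⟩
  · rw [MonoidalCategory.whiskerLeft_comp, Category.assoc, ← hs', T.hps]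
  · exact LU.third hT (T.hL.tensor D.hU D.hF) T.hL
  · intro W hW g hg
    rw [MonoidalCategory.whiskerLeft_comp, Category.assoc] at hg
    obtain ⟨l, hl⟩ := ye3 (tensor_dist W hT) g (T.inj W hW _ hg)
    have hz : Zm M 0 ((W ⊗ (F ⊗ T.X))⟦(1 : ℤ)⟧) :=
      Zm.shift ((T.hL.tensor D.hU D.hF) W hW M D.hM)
    rw [hl, hz.zero l, comp_zero]
  · have h1 := comp12 hT
    simp only [κ, Preadditive.sub_comp, Category.assoc, sub_eq_zero] at h1
    exact h1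

/-- The next stage. -/
noncomputable def nx {D : Dat R U M F P} (T : TW D) : TW D := T.next.choose

/-- The map to the next stage. -/
noncomputable def io {D : Dat R U M F P} (T : TW D) : T.X ⟶ (nx T).X :=
  T.next.choose_spec.choose

lemma io_p {D : Dat R U M F P} (T : TW D) : T.p ≫ io T = (nx T).p :=
  T.next.choose_spec.choose_spec.1

lemma io_s {D : Dat R U M F P} (T : TW D) : (F ◁ io T) ≫ (nx T).s = T.s :=
  T.next.choose_spec.choose_spec.2.1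

lemma io_v {D : Dat R U M F P} (T : TW D) : VV D.v T.X ≫ io T = T.s ≫ T.p ≫ io T :=
  T.next.choose_spec.choose_spec.2.2

/-- The tower above a stage. -/
noncomputable def tw {D : Dat R U M F P} (T : TW D) : ℕ → TW D
  | 0 => T
  | k + 1 => nx (tw T k)

/-- The maps of the tower. -/
noncomputable def it {D : Dat R U M F P} (T : TW D) : ∀ k : ℕ, T.X ⟶ (tw T k).X
  | 0 => 𝟙 _
  | k + 1 => it T k ≫ io (tw T k)

lemma it_p {D : Dat R U M F P} (T : TW D) (k : ℕ) : T.p ≫ it T k = (tw T k).p := by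
  induction k with
  | zero => simp [it, tw]
  | succ k ih => rw [it, ← Category.assoc, ih, io_p]; rfl

lemma it_s {D : Dat R U M F P} (T : TW D) (k : ℕ) : (F ◁ it T k) ≫ (tw T k).s = T.s := by
  induction k with
  | zero => simp [it, tw]
  | succ k ih =>
    have h1 : (tw T (k + 1)).s = (nx (tw T k)).s := rfl
    rw [it, MonoidalCategory.whiskerLeft_comp, Category.assoc, h1, io_s, ih]

lemma it_v {D : Dat R U M F P} (T : TW D) (k : ℕ) :
    VV D.v T.X ≫ it T (k + 1) = T.s ≫ T.p ≫ it T (k + 1) := by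
  induction k with
  | zero => simp only [it, Category.id_comp]; exact io_v T
  | succ k ih =>
    rw [it, ← Category.assoc, ih]
    simp only [Category.assoc]

/-- Nilpotence. -/
lemma nilp {D : Dat R U M F P} (T : TW D) {Y : C} (hY : LU U Y) (δ : Y ⟶ T.X)
    (hδ : (F ◁ δ) ≫ T.s = 0) (k : ℕ) : ∃ δ' : Y ⊗ pw (𝟙_ C) P k ⟶ (tw T k).X,
      (F ◁ δ') ≫ (tw T k).s = 0 ∧
      (ρ_ Y).inv ≫ (Y ◁ qp D.q k) ≫ δ' = δ ≫ it T k := by
  induction k with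
  | zero =>
    refine ⟨(ρ_ Y).hom ≫ δ, ?_, ?_⟩
    · rw [MonoidalCategory.whiskerLeft_comp, Category.assoc]
      have h1 : (F ◁ δ) ≫ (tw T 0).s = 0 := hδ
      rw [h1, comp_zero]
    · simp [qp, it]
  | succ k ih =>
    obtain ⟨δ', h1, h2⟩ := ih
    let Y' : C := Y ⊗ pw (𝟙_ C) P k
    let T' := tw T k
    have h3 : (Y' ◁ D.v) ≫ ((ρ_ Y').hom ≫ δ' ≫ io T') = 0 := by
      rw [← Category.assoc, VV_braid, Category.assoc, ← Category.assoc (VV D.v Y'), ← VV_nat,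
        Category.assoc, io_v, ← Category.assoc (F ◁ δ'), h1, zero_comp, comp_zero]
    obtain ⟨l, hl⟩ := ye2 (tensor_dist Y' D.hT) _ h3
    refine ⟨(α_ Y (pw (𝟙_ C) P k) P).inv ≫ l, ?_, ?_⟩
    · exact ((D.zero_P (D.tensor_pw hY k) D.hF D.hM).iso
        (whiskerLeftIso F (α_ Y (pw (𝟙_ C) P k) P))).zero _
    · have h4 : (ρ_ Y).inv ≫ (Y ◁ qp D.q (k + 1)) ≫ (α_ Y (pw (𝟙_ C) P k) P).inv ≫ l =
          (ρ_ Y).inv ≫ (Y ◁ qp D.q k) ≫ (ρ_ Y').inv ≫ (Y' ◁ D.q) ≫ l := by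
        simp only [qp, MonoidalCategory.whiskerLeft_comp, Category.assoc, Y']
        congr 2
        simp
      rw [h4, ← hl]
      simp only [Iso.inv_hom_id_assoc, it]
      rw [← Category.assoc δ, ← h2]
      simp only [Category.assoc]
      rfl

lemma nilp0 {D : Dat R U M F P} (T : TW D) {Y : C} (hY : LU U Y) (δ : Y ⟶ T.X)
    (hδ : (F ◁ δ) ≫ T.s = 0) (k : ℕ) (hk : qp D.q k = 0) : δ ≫ it T k = 0 := by
  obtain ⟨δ', _, h2⟩ := nilp T hY δ hδ k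
  have h3 : Y ◁ (0 : 𝟙_ C ⟶ pw (𝟙_ C) P k) = 0 := (tensorLeft Y).map_zero _ _
  rw [← h2, hk, h3, zero_comp, comp_zero]

/-- The first stage. -/
def t0 (D : Dat R U M F P) : TW D where
  X := M
  p := 𝟙 M
  s := D.a
  hps := by simp
  hL := LU.of_mem D.hU D.hM
  inj W _ g hg := by simpa using hg

/-- Factorisation of a map `F ⊗ Y ⟶ N` through `v`. -/
lemma fac_v (D : Dat R U M F P) {Y N : C} (hY : LU U Y) (hN : U N) (g : F ⊗ Y ⟶ N)
    (hg : VV D.v (F ⊗ Y) ≫ g = (F ◁ VV D.v Y) ≫ g) : ∃ j : Y ⟶ N, g = VV D.v Y ≫ j := by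
  have hK := inv_rot_of_distTriang _ D.hT
  let K : C := P⟦(-1 : ℤ)⟧
  let i : K ⟶ F := (Triangle.mk D.v D.q D.w).invRotate.mor₁
  have hK' : Triangle.mk i D.v (Triangle.mk D.v D.q D.w).invRotate.mor₃ ∈ distTriang C := hK
  have hiv : i ≫ D.v = 0 := comp12 hK'
  let δ : Y ⊗ K ⟶ N := (Y ◁ i) ≫ (β_ Y F).hom ≫ g
  have h3 : ((Y ◁ i) ≫ (β_ Y F).hom) ≫ VV D.v Y = 0 := by
    rw [Category.assoc, ← VV_braid, ← Category.assoc, ← MonoidalCategory.whiskerLeft_comp, hiv,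
      (tensorLeft Y).map_zero K (𝟙_ C) |> (fun h => (h : Y ◁ (0 : K ⟶ 𝟙_ C) = 0)), zero_comp]
  have hδ : VV D.v (Y ⊗ K) ≫ δ = 0 := by
    have h2 : δ = ((Y ◁ i) ≫ (β_ Y F).hom) ≫ g := by simp only [δ, Category.assoc]
    have h4 : F ◁ (0 : Y ⊗ K ⟶ Y) = 0 := (tensorLeft F).map_zero _ _
    rw [h2, ← Category.assoc, ← VV_nat, Category.assoc, hg, ← Category.assoc,
      ← MonoidalCategory.whiskerLeft_comp, h3, h4, zero_comp]
  have h5 : (Y ◁ i) ≫ ((β_ Y F).hom ≫ g) = 0 := D.tf (D.tensor_K hY) hN δ hδ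
  obtain ⟨l, hl⟩ := ye2 (tensor_dist Y hK') _ h5
  refine ⟨(ρ_ Y).inv ≫ l, ?_⟩
  rw [← cancel_epi (β_ Y F).hom, hl, ← Category.assoc, ← VV_braid]
  simp

/-- Extension. -/
lemma exten (D : Dat R U M F P) {Y : C} (hY : LU U Y) (g : F ⊗ Y ⟶ M)
    (hg : (F ◁ g) ≫ D.a = (F ◁ VV D.v Y) ≫ g) (n : ℕ) (hn : qp D.q n = 0) :
    ∃ π : Y ⟶ (tw (t0 D) n).X, (F ◁ π) ≫ (tw (t0 D) n).s = g := by
  let T := tw (t0 D) n
  have hK := inv_rot_of_distTriang _ D.hT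
  let K : C := P⟦(-1 : ℤ)⟧
  let i : K ⟶ F := (Triangle.mk D.v D.q D.w).invRotate.mor₁
  have hK' : Triangle.mk i D.v (Triangle.mk D.v D.q D.w).invRotate.mor₃ ∈ distTriang C := hK
  have hiv : i ≫ D.v = 0 := comp12 hK'
  let δ : Y ⊗ K ⟶ M := (Y ◁ i) ≫ (β_ Y F).hom ≫ g
  have h1 : (F ◁ δ) ≫ (t0 D).s = 0 := by
    change (F ◁ δ) ≫ D.a = 0
    have h2 : F ◁ δ = (F ◁ ((Y ◁ i) ≫ (β_ Y F).hom)) ≫ (F ◁ g) := by
      simp only [δ, MonoidalCategory.whiskerLeft_comp, Category.assoc]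
    have h3 : ((Y ◁ i) ≫ (β_ Y F).hom) ≫ VV D.v Y = 0 := by
      rw [Category.assoc, ← VV_braid, ← Category.assoc, ← MonoidalCategory.whiskerLeft_comp, hiv,
        (tensorLeft Y).map_zero K (𝟙_ C) |> (fun h => (h : Y ◁ (0 : K ⟶ 𝟙_ C) = 0)), zero_comp]
    rw [h2, Category.assoc, hg, ← Category.assoc, ← MonoidalCategory.whiskerLeft_comp, h3]
    have h4 : F ◁ (0 : Y ⊗ K ⟶ Y) = 0 := (tensorLeft F).map_zero _ _
    rw [h4, zero_comp]
  have h5 := nilp0 (t0 D) (D.tensor_K hY) δ h1 n hn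
  have h6 : it (t0 D) n = T.p := by
    have := it_p (t0 D) n
    rw [← this]
    change _ = 𝟙 M ≫ _
    rw [Category.id_comp]
  rw [h6] at h5
  have h7 : (Y ◁ i) ≫ ((β_ Y F).hom ≫ g ≫ T.p) = 0 := by
    simpa only [δ, Category.assoc] using h5
  obtain ⟨l, hl⟩ := ye2 (tensor_dist Y hK') _ h7
  let π : Y ⟶ T.X := (ρ_ Y).inv ≫ l
  have h8 : VV D.v Y ≫ π = g ≫ T.p := by
    rw [← cancel_epi (β_ Y F).hom, hl, ← Category.assoc, ← VV_braid]
    simp [π]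
  refine ⟨π, ?_⟩
  rw [← sub_eq_zero]
  have h9 : (F ◁ VV D.v Y) ≫ ((F ◁ π) ≫ T.s - g) = 0 := by
    rw [Preadditive.comp_sub, ← Category.assoc, ← MonoidalCategory.whiskerLeft_comp, h8,
      MonoidalCategory.whiskerLeft_comp, Category.assoc, T.hps, hg, sub_self]
  have h10 : (F ◁ (Y ◁ D.v)) ≫ ((F ◁ (ρ_ Y).hom) ≫ ((F ◁ π) ≫ T.s - g)) = 0 := by
    rw [← Category.assoc, ← MonoidalCategory.whiskerLeft_comp, VV_braid,
      MonoidalCategory.whiskerLeft_comp, Category.assoc, h9, comp_zero]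
  obtain ⟨m, hm⟩ := ye2 (tensor_dist F (tensor_dist Y D.hT)) _ h10
  have h11 : m = 0 := (D.zero_P hY D.hF D.hM).zero m
  rw [h11, comp_zero] at hm
  rw [← cancel_epi (F ◁ (ρ_ Y).hom), hm, comp_zero]

/-- The main step. -/
lemma des_left [IsIdempotentComplete C] (D : Dat R U M F P) (n : ℕ)
    (hn : qp D.q n = 0) : ∃ (I : C) (p : M ⟶ I) (s : F ⊗ I ⟶ M),
      s ≫ p = VV D.v I ∧ (F ◁ p) ≫ s = D.a ∧ LU U I ∧ (F ◁ s) ≫ D.a = (F ◁ VV D.v I) ≫ s := by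
  obtain ⟨n, hn⟩ : ∃ m, qp D.q (m + 1) = 0 := ⟨n, by rw [qp, hn, zero_comp]⟩
  let T := tw (t0 D) (n + 1)
  let S := tw T (n + 1)
  obtain ⟨π, hπ⟩ := exten D S.hL S.s S.vs (n + 1) hn
  change (F ◁ π) ≫ T.s = S.s at hπ
  let e : T.X ⟶ T.X := it T (n + 1) ≫ π
  have he : (F ◁ e) ≫ T.s = T.s := by
    rw [MonoidalCategory.whiskerLeft_comp, Category.assoc, hπ, it_s]
  have h1 : (F ◁ (e - 𝟙 T.X)) ≫ T.s = 0 := by
    have h2 : F ◁ (e - 𝟙 T.X) = F ◁ e - F ◁ (𝟙 T.X) := (tensorLeft F).map_sub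
    rw [h2, Preadditive.sub_comp, he, MonoidalCategory.whiskerLeft_id, Category.id_comp, sub_self]
  have h3 := nilp0 T T.hL _ h1 (n + 1) hn
  rw [Preadditive.sub_comp, Category.id_comp, sub_eq_zero] at h3
  have h4 : e ≫ e = e := by
    change e ≫ (it T (n + 1) ≫ π) = it T (n + 1) ≫ π
    rw [← Category.assoc, h3]
  obtain ⟨I, c, r, hcr, hrc⟩ := IsIdempotentComplete.idempotents_split T.X e h4
  refine ⟨I, T.p ≫ r, (F ◁ c) ≫ T.s, ?_, ?_, T.hL.retract c r hcr, ?_⟩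
  · have h5 : r = it T (n + 1) ≫ π ≫ r := by
      have : r = e ≫ r := by rw [← hrc, Category.assoc, hcr, Category.comp_id]
      conv_lhs => rw [this]
      simp only [e, Category.assoc]
    have h6 : T.s ≫ T.p ≫ r = VV D.v T.X ≫ r := by
      rw [h5]
      have h7 := it_v T n
      calc T.s ≫ T.p ≫ it T (n + 1) ≫ π ≫ r = (T.s ≫ T.p ≫ it T (n + 1)) ≫ π ≫ r := by
            simp only [Category.assoc]
        _ = (VV D.v T.X ≫ it T (n + 1)) ≫ π ≫ r := by rw [h7]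
        _ = _ := by simp only [Category.assoc]
    rw [Category.assoc, h6, ← Category.assoc, VV_nat, Category.assoc, hcr, Category.comp_id]
  · rw [← Category.assoc, ← MonoidalCategory.whiskerLeft_comp, Category.assoc, hrc,
      MonoidalCategory.whiskerLeft_comp, Category.assoc, he, T.hps]
  · rw [MonoidalCategory.whiskerLeft_comp, Category.assoc, T.vs, ← Category.assoc,
      ← Category.assoc, ← MonoidalCategory.whiskerLeft_comp, ← MonoidalCategory.whiskerLeft_comp,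
      VV_nat]

/-- The factorisation property. -/
lemma fac_left (D : Dat R U M F P) {I : C} {p : M ⟶ I} {s : F ⊗ I ⟶ M}
    (h1 : s ≫ p = VV D.v I) (h2 : (F ◁ p) ≫ s = D.a) (hI : LU U I)
    (h3 : (F ◁ s) ≫ D.a = (F ◁ VV D.v I) ≫ s) {N : C} (hN : U N) (g : M ⟶ N)
    (hg : D.a ≫ g = VV D.v M ≫ g) : ∃ j : I ⟶ N, p ≫ j = g := by
  obtain ⟨j, hj⟩ := fac_v D hI hN (s ≫ g) (by
    rw [← Category.assoc, ← VV_nat, Category.assoc, ← hg, ← Category.assoc, h3, Category.assoc])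
  refine ⟨j, ?_⟩
  rw [← sub_eq_zero]
  apply D.tf (LU.of_mem D.hU D.hM) hN
  rw [Preadditive.comp_sub, sub_eq_zero, ← hg, ← h2, Category.assoc, hj, ← Category.assoc,
    ← Category.assoc, VV_nat]

end

theorem t_DESU : S_DESU.{v, u, w} := by
  intro C _ _ _ _ _ _ _ _ _ _ _ _ E _ R U hU M F P hM hF v q w hT n hn a ha
  have hb : (β_ F M).hom ≫ (M ◁ v) ≫ (ρ_ M).hom = VV v M := by
    rw [VV_braid, SymmetricCategory.symmetry_assoc]
  let D : Dat R U M F P :=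
    { hU := hU
      hM := hM
      hF := hF
      v := v
      q := q
      w := w
      hT := hT
      n := n
      hn := hn
      a := (β_ F M).hom ≫ a
      ha := by
        rw [BraidedCategory.braiding_naturality_right_assoc,
          BraidedCategory.braiding_naturality_right_assoc, comp_whiskerRight, Category.assoc,
          ha, ← hb]
        simp only [comp_whiskerRight, Category.assoc] }
  obtain ⟨I, p, s, h1, h2, h3, h4⟩ := des_left D n hn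
  refine ⟨I, p, (β_ I F).hom ≫ s, ?_, ?_, ?_⟩
  · rw [Category.assoc, h1, ← VV_braid]
  · rw [← Category.assoc, BraidedCategory.braiding_naturality_left, Category.assoc, h2]
    change (β_ M F).hom ≫ (β_ F M).hom ≫ a = a
    rw [SymmetricCategory.symmetry_assoc]
  · intro N hN g hg
    refine fac_left D h1 h2 h3 h4 hN g ?_
    change ((β_ F M).hom ≫ a) ≫ g = VV v M ≫ g
    rw [Category.assoc, hg, ← hb]
    simp only [Category.assoc]

end Run7.h985.TC.DU
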