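import Pool.Agent.Run7.h985.TC.CritEq
import Pool.Agent.Run7.h617.TC.NILC
import Pool.Agent.Run7.h663.TC.DUAL

/-!
# Conservativity and nilpotence
-/

set_option autoImplicit false
set_option linter.unusedSectionVars false
set_option linter.unusedSimpArgs false
set_option linter.unusedVariables false
set_option backward.isDefEq.respectTransparency false
set_option backward.defeqAttrib.useBackward true

open CategoryTheory Limits MonoidalCategory Pretriangulated Triangulated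

namespace Run7.h985.Phan

open Pool.Agent.Y116.MT Pool.Agent.V1178.MT Run7.h822.MT Run7.h985.Crit Run7.h985.TC

universe v u w

section

variable {C : Type u} [Category.{v} C] [Preadditive C] [HasZeroObject C] [HasShift C ℤ]
  [∀ n : ℤ, (shiftFunctor C n).Additive] [Pretriangulated C] [MonoidalCategory C]
  [SymmetricCategory C] [TensorTriangulated C] [MonoidalPreadditive C] [RightRigidCategory C]
  {E : Type w} [Field E] {R : Realisation C E}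

/-- The powers of the coevaluation are split monomorphisms after tensoring with `X`. -/
lemma split_pow (X : C) (n : ℕ) : ∃ r : pw (𝟙_ C) (X ⊗ Xᘁ) n ⊗ X ⟶ 𝟙_ C ⊗ X,
    (qp (η_ X Xᘁ) n ▷ X) ≫ r = 𝟙 _ := by
  induction n with
  | zero => exact ⟨𝟙 _, by
      change (𝟙 (𝟙_ C) ▷ X) ≫ 𝟙 _ = 𝟙 _
      simp⟩
  | succ n ih =>
    obtain ⟨r, hr⟩ := ih
    let Y : C := pw (𝟙_ C) (X ⊗ Xᘁ) n
    have h1 : (η_ X Xᘁ ▷ X) ≫ (α_ X Xᘁ X).hom ≫ (X ◁ ε_ X Xᘁ) = (λ_ X).hom ≫ (ρ_ X).inv :=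
      ExactPairing.evaluation_coevaluation X Xᘁ
    refine ⟨(α_ Y (X ⊗ Xᘁ) X).hom ≫ (Y ◁ ((α_ X Xᘁ X).hom ≫ (X ◁ ε_ X Xᘁ) ≫ (ρ_ X).hom)) ≫ r, ?_⟩
    change ((qp (η_ X Xᘁ) n ≫ (ρ_ Y).inv ≫ (Y ◁ η_ X Xᘁ)) ▷ X) ≫ _ = _
    rw [comp_whiskerRight, comp_whiskerRight]
    simp only [Category.assoc]
    have h2 : ((Y ◁ η_ X Xᘁ) ▷ X) ≫ (α_ Y (X ⊗ Xᘁ) X).hom =
        (α_ Y (𝟙_ C) X).hom ≫ (Y ◁ (η_ X Xᘁ ▷ X)) := by simp
    have h3 : (Y ◁ (η_ X Xᘁ ▷ X)) ≫ (Y ◁ ((α_ X Xᘁ X).hom ≫ (X ◁ ε_ X Xᘁ) ≫ (ρ_ X).hom)) =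
        Y ◁ (λ_ X).hom := by
      rw [← MonoidalCategory.whiskerLeft_comp]
      congr 1
      rw [← Category.assoc (α_ X Xᘁ X).hom, ← Category.assoc (η_ X Xᘁ ▷ X), h1, Category.assoc,
        Iso.inv_hom_id, Category.comp_id]
    calc (qp (η_ X Xᘁ) n ▷ X) ≫ ((ρ_ Y).inv ▷ X) ≫ ((Y ◁ η_ X Xᘁ) ▷ X) ≫
          (α_ Y (X ⊗ Xᘁ) X).hom ≫ (Y ◁ ((α_ X Xᘁ X).hom ≫ (X ◁ ε_ X Xᘁ) ≫ (ρ_ X).hom)) ≫ r =
        (qp (η_ X Xᘁ) n ▷ X) ≫ ((ρ_ Y).inv ▷ X) ≫ (((Y ◁ η_ X Xᘁ) ▷ X) ≫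
          (α_ Y (X ⊗ Xᘁ) X).hom) ≫
            (Y ◁ ((α_ X Xᘁ X).hom ≫ (X ◁ ε_ X Xᘁ) ≫ (ρ_ X).hom)) ≫ r := by
          simp only [Category.assoc]
      _ = (qp (η_ X Xᘁ) n ▷ X) ≫ ((ρ_ Y).inv ▷ X) ≫ (α_ Y (𝟙_ C) X).hom ≫
            ((Y ◁ (η_ X Xᘁ ▷ X)) ≫
              (Y ◁ ((α_ X Xᘁ X).hom ≫ (X ◁ ε_ X Xᘁ) ≫ (ρ_ X).hom))) ≫ r := by
          rw [h2]
          simp only [Category.assoc]
      _ = (qp (η_ X Xᘁ) n ▷ X) ≫ r := by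
          rw [h3, triangle_assoc, ← comp_whiskerRight_assoc (ρ_ Y).inv (ρ_ Y).hom,
            Iso.inv_hom_id, id_whiskerRight, Category.id_comp]
      _ = 𝟙 _ := hr

/-- If the coevaluation of `X` is nilpotent then `X = 0`. -/
lemma zero_of_nil (X : C) (n : ℕ) (h : qp (η_ X Xᘁ) n = 0) : IsZero X := by
  obtain ⟨r, hr⟩ := split_pow X n
  rw [h, MonoidalPreadditive.zero_whiskerRight, zero_comp] at hr
  have h1 : IsZero (𝟙_ C ⊗ X) := (IsZero.iff_id_eq_zero _).2 hr.symm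
  exact h1.of_iso (λ_ X).symm

/-- Nilpotence of the morphisms from `𝟙` to objects in degree `-1` gives conservativity. -/
lemma cons_of_nil (hDUAL : S_DUAL.{v, u, w}) [IsTriangulated C]
    (h : ∀ (P : C) (q : 𝟙_ C ⟶ P), R.Deg P (-1) → ∃ n : ℕ, qp q n = 0) : Conservative R := by
  intro X hX
  have h0 : R.Deg X 0 := fun i _ => hX i
  have h1 : R.Deg X (-1) := fun i _ => hX i
  have h2 : R.Deg (X ⊗ Xᘁ) (-1) := by simpa using h1.tensor (hDUAL C E R X h0)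
  obtain ⟨n, hn⟩ := h _ (η_ X Xᘁ) h2
  exact zero_of_nil X n hn

end

end Run7.h985.Phan
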