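import Pool.Agent.Run7.h822.MT.Exist

/-!
# A criterion for the motivic t-structure: injectivity and generation suffice (interface)

Let `C` be an idempotent complete rigid tensor triangulated category with a realisation `R`, and
let `𝓗` be the class of the objects with cohomology only in degree zero (`R.Deg X 0`).
THEOREM: a motivic t-structure exists if and only if
* (`Inj`) for `X` in `𝓗`, `R` is injective on `Hom(𝟙, X)`, and `Hom(𝟙, X⟦-n⟧) = 0` for `n > 0`;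
* (`Gen`) `𝓗` generates `C` as a thick subcategory.
No truncation functors, no kernels, cokernels or images, no conservativity are assumed.

All pieces are closed propositions `S_X` below. The library of helper822 / Y116 has a lot:
`R.Deg`, `Realisation.Deg.iso / shift / retract / tensor / isIso_mu`, `deg_unit`,
`tensor_dist`, `rShift_natural_left / right`, `ye1 ye1' ye2 ye3 ce1 ce2 ce3 rotD comp12 comp23
comp31` (exactness), `pw`, `exch`, `exch_natural`, `mv`, `alt`, `asym`, `asym_mrg`, `kap`,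
`alt_lax`, `alt_vec_zero`, `eq_zero_of_nm`, `nm_recover`, `map_whisker_zero`, `hz1 hz2 hz3 hmono1
hmono2 hepi1 hepi2` (homology of a triangle), `isLE_of_H`, `isGE_of_H`, `faithful_heart`,
`truncations_of_motivic`, `motivic_tOf`, `motivic_iff_one`, `isZero_cone`.
-/

set_option autoImplicit false

open CategoryTheory Limits MonoidalCategory Pretriangulated Triangulated

namespace Run7.h985.TC

open Pool.Agent.Y116.MT Pool.Agent.V1178.MT Run7.h822.MT

universe v u w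

section

variable {C : Type u} [Category.{v} C] [Preadditive C] [HasZeroObject C] [HasShift C ℤ]
  [∀ n : ℤ, (shiftFunctor C n).Additive] [Pretriangulated C] [MonoidalCategory C]
  [SymmetricCategory C] [TensorTriangulated C]

/-- For each object `X` with cohomology only in degree zero, the realisation is injective on
`Hom(𝟙, X)`, and the groups `Hom(𝟙, X⟦-n⟧)` vanish for `n > 0`. -/
structure Inj {E : Type w} [Field E] (R : Realisation C E) : Prop where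
  zero (X : C) (f : 𝟙_ C ⟶ X) : R.Deg X 0 → R.H.map f = 0 → f = 0
  neg (X : C) (n : ℤ) (f : 𝟙_ C ⟶ X⟦-n⟧) : R.Deg X 0 → 0 < n → f = 0

/-- The objects with cohomology only in degree zero generate `C` as a thick subcategory. -/
def Gen {E : Type w} [Field E] (R : Realisation C E) : Prop :=
  ∀ P : ObjectProperty C, IsThick P → (∀ X, R.Deg X 0 → P X) → ∀ X, P X

/-- Working form of `Inj`. -/
structure Fth {E : Type w} [Field E] (R : Realisation C E) : Prop where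
  zero {X Y : C} (hX : R.Deg X 0) (hY : R.Deg Y 0) (f : X ⟶ Y) (hf : R.H.map f = 0) : f = 0
  neg {X Y : C} (hX : R.Deg X 0) (hY : R.Deg Y 0) (n : ℤ) (hn : 0 < n) (f : X⟦n⟧ ⟶ Y) : f = 0

/-- The morphisms between objects with cohomology only in degree zero have images. -/
def HasIm {E : Type w} [Field E] (R : Realisation C E) : Prop :=
  ∀ {M N : C}, R.Deg M 0 → R.Deg N 0 → ∀ f : M ⟶ N, ∃ (I : C) (p : M ⟶ I) (j : I ⟶ N),
    R.Deg I 0 ∧ p ≫ j = f ∧ Epi (R.H.map p) ∧ Mono (R.H.map j)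

/-- The powers `𝟙 ⟶ P ⊗ ⋯ ⊗ P` of `q`. -/
def qp {P : C} (q : 𝟙_ C ⟶ P) : ∀ n : ℕ, 𝟙_ C ⟶ pw (𝟙_ C) P n
  | 0 => 𝟙 _
  | n + 1 => qp q n ≫ (ρ_ (pw (𝟙_ C) P n)).inv ≫ (pw (𝟙_ C) P n ◁ q)

/-- `X` has a finite filtration whose graded pieces have cohomology only in degree `i`, one piece
for each `i = a + 1, …, b` (lowest degree first). -/
inductive Fil {E : Type w} [Field E] (R : Realisation C E) (a : ℤ) : ℤ → C → Prop
  | zero {X : C} (hX : IsZero X) : Fil R a a X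
  | step {b : ℤ} {X' X H : C} (f : X' ⟶ X) (g : X ⟶ H) (h : H ⟶ X'⟦(1 : ℤ)⟧)
      (hT : Triangle.mk f g h ∈ distTriang C) (hX' : Fil R a b X') (hH : R.Deg H (b + 1)) :
      Fil R a (b + 1) X

end

/-- DUAL (60-100 lines). The dual `Xᘁ` of an object in degree zero is in degree zero. Proof: fix
`i ≠ 0` and put `Y = Xᘁ⟦i⟧`. The zigzag
`Y ⟶ Y ⊗ (X ⊗ Xᘁ) ⟶ (Y ⊗ X) ⊗ Xᘁ ≅ ((Xᘁ ⊗ X)⟦i⟧) ⊗ Xᘁ ⟶ (𝟙⟦i⟧) ⊗ Xᘁ ≅ Xᘁ⟦i⟧` is the identity
(shift of the triangle identity; use `lShift`/`rShift` and their naturality, or the equivalent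
adjunction isomorphism). For `y` in `H(Y)` the first map sends `y` to `μ (y ⊗ η(1))`, and
`η(1) = μ (∑ x_k ⊗ z_k)` with `x_k` in `H(X)`, `z_k` in `H(Xᘁ)`, since `μ : H X ⊗ H(Xᘁ) ⟶ H(X ⊗ Xᘁ)`
is an isomorphism (`Realisation.Deg.isIso_mu`). By associativity of `μ` the image of `y` is
`∑ μ (ε(μ (y ⊗ x_k)) ⊗ z_k)`, and `ε(μ (y ⊗ x_k))` lies in `H(𝟙⟦i⟧) = 0` (`deg_unit`). So `H(Y) = 0`.
Another way: Künneth for `X ⊗ Xᘁ` and `Xᘁ ⊗ X`, as you like. -/
def S_DUAL : Prop := ∀ (C : Type u) [Category.{v} C] [Preadditive C] [HasZeroObject C]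
  [HasShift C ℤ] [∀ n : ℤ, (shiftFunctor C n).Additive] [Pretriangulated C] [IsTriangulated C]
  [MonoidalCategory C] [SymmetricCategory C] [TensorTriangulated C] [MonoidalPreadditive C]
  [RightRigidCategory C] (E : Type w) [Field E] (R : Realisation C E) (X : C),
  R.Deg X 0 → R.Deg (Xᘁ) 0

/-- FTH (40-80 lines). Proof: a morphism `f : X ⟶ Y` is determined by its name
`nm f : 𝟙 ⟶ Y ⊗ Xᘁ` (`eq_zero_of_nm`), `Y ⊗ Xᘁ` is in degree zero, and `H(nm f) = 0` if `H(f) = 0`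
(`map_whisker_zero`, as in the proof of `faithful_heart` in Y116/MT/Mot.lean). For `X⟦n⟧ ⟶ Y`:
first shift by `-n` to get `X ⟶ Y⟦-n⟧`; its name is `𝟙 ⟶ (Y⟦-n⟧) ⊗ Xᘁ ≅ (Y ⊗ Xᘁ)⟦-n⟧`
(`lShift`), zero by `Inj.neg`. -/
def S_FTH : Prop := ∀ (C : Type u) [Category.{v} C] [Preadditive C] [HasZeroObject C]
  [HasShift C ℤ] [∀ n : ℤ, (shiftFunctor C n).Additive] [Pretriangulated C] [IsTriangulated C]
  [MonoidalCategory C] [SymmetricCategory C] [TensorTriangulated C] [MonoidalPreadditive C]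
  [RightRigidCategory C] (E : Type w) [Field E] (R : Realisation C E),
  (∀ X : C, R.Deg X 0 → R.Deg (Xᘁ) 0) → Inj R → Fth R

/-- NIL (100-180 lines). The class of an extension `K ⟶ F ⟶ 𝟙` is nilpotent. Write
`P ≅ K ⊗ 𝟙⟦1⟧` with `K = P⟦-1⟧` (`rShift`), `R.Deg K 0`. Proof.
(1) For every `n`, `n! • x = 0` implies `x = 0` for all morphisms `x` of `C`: the cone `Z` of
`n! • 𝟙 : 𝟙 ⟶ 𝟙` has `H^i(Z) = 0` for all `i` (characteristic zero), so `R.Deg Z 0`, and
`Fth.zero` for the identity of `Z` gives `Z = 0`; so `n!` is invertible on `𝟙`, hence on all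
objects (tensor with `𝟙`).
(2) For `n` greater than the dimension of `H(K)`: `alt 𝟙 K n = 0` by `Fth.zero` (`pw 𝟙 K n` is in
degree zero), since `kap R.H 𝟙 K n` is an isomorphism (`isIso_mu`), `alt_lax` and `alt_vec_zero`.
By `asym_mrg` (with `L = 𝟙⟦1⟧`, sign `-1`; see `asym_shift` in Run7/h822/MT/Bound.lean, case
`0 ≤ p`, `m = 1`) `asym 1 (𝟙 ⊗ 𝟙) (K ⊗ 𝟙⟦1⟧) n = 0`; transport to `asym 1 𝟙 P n = 0` by naturality of
`mv`, `asym` in both variables (or prove `qp` statement directly for `K ⊗ 𝟙⟦1⟧` and transport `qp`).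
(3) `qp q n ≫ mv 𝟙 P (n-1) i = qp q n`, since `exch` fixes the last two factors `q ⊗ q`
(`exch_natural`, `exch_natural_left`, `exch_unit`), so `qp q n ≫ asym 1 𝟙 P n = n! • qp q n`.
Hence `n! • qp q n = 0` and `qp q n = 0`. -/
def S_NIL : Prop := ∀ (C : Type u) [Category.{v} C] [Preadditive C] [HasZeroObject C]
  [HasShift C ℤ] [∀ n : ℤ, (shiftFunctor C n).Additive] [Pretriangulated C] [IsTriangulated C]
  [MonoidalCategory C] [SymmetricCategory C] [TensorTriangulated C] [MonoidalPreadditive C]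
  (E : Type w) [Field E] [CharZero E] (R : Realisation C E), Fth R →
  ∀ (P : C) (q : 𝟙_ C ⟶ P), R.Deg P (-1) → ∃ n : ℕ, qp q n = 0

/-- DES (descent; helper985 does it). -/
def S_DES : Prop := ∀ (C : Type u) [Category.{v} C] [Preadditive C] [HasZeroObject C]
  [HasShift C ℤ] [∀ n : ℤ, (shiftFunctor C n).Additive] [Pretriangulated C] [IsTriangulated C]
  [MonoidalCategory C] [SymmetricCategory C] [TensorTriangulated C] [MonoidalPreadditive C]
  [IsIdempotentComplete C] (E : Type w) [Field E] (R : Realisation C E), Fth R →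
  ∀ (M F P : C), R.Deg M 0 → R.Deg F 0 → R.Deg P (-1) →
  ∀ (v : F ⟶ 𝟙_ C) (q : 𝟙_ C ⟶ P) (w : P ⟶ F⟦(1 : ℤ)⟧), Triangle.mk v q w ∈ distTriang C →
  ∀ n : ℕ, qp q n = 0 →
  ∀ a : M ⊗ F ⟶ M, (a ▷ F) ≫ a = ((M ◁ v ≫ (ρ_ M).hom) ▷ F) ≫ a →
  ∃ (I : C) (p : M ⟶ I) (s : I ⊗ F ⟶ M), s ≫ p = (I ◁ v) ≫ (ρ_ I).hom ∧ (p ▷ F) ≫ s = a

/-- CR1 (100-200 lines). Cramer's rule. Let `D n = pwZ f n ≫ alt 𝟙 N n : pw 𝟙 M n ⟶ pw 𝟙 N n`, where
`pwZ f n : pw 𝟙 M n ⟶ pw 𝟙 N n` is the `n`-th power of `f` (`pwZ f (n+1) = (pwZ f n) ⊗ₘ f`).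
`D 0 = 𝟙 ≠ 0` (`not_isZero_unit`), and `D n = 0` for `n` greater than the dimension of `H(N)`
(`alt 𝟙 N n = 0` by `Fth.zero`, `alt_lax`, `alt_vec_zero`, `kap` is an isomorphism). Let `r` be such
that `D r ≠ 0` and `D (r + 1) = 0` (`Nat.find`). If `r = 0`, then `f = 0`. Otherwise `r = m + 1`; put
`U = pw 𝟙 M r`, `W = pw 𝟙 N r`, `g = D r`. In
`0 = D (r+1) = (pwZ f r ⊗ₘ f) ≫ ∑_i (-1)^(r+i) • (mv 𝟙 N r i ≫ (alt 𝟙 N r ▷ N))` the summand `i = r`
(`Fin.last`) is `(g ▷ M) ≫ (W ◁ f)`. For `i = j.castSucc`, `mv 𝟙 N r i` is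
`(mv 𝟙 N m j ▷ N) ≫ (exch (pw 𝟙 N m) N N).hom`, and by naturality of `mv` and `exch`
`(pwZ f r ⊗ₘ f) ≫ (mv 𝟙 N m j ▷ N) ≫ (exch ..).hom ≫ (alt 𝟙 N r ▷ N) = (U ◁ f) ≫ A_j ≫ (W ◁ f)` with
`A_j = (mv 𝟙 M m j ▷ N) ≫ (exch (pw 𝟙 M m) M N).hom ≫ (((pwZ f m ▷ N) ≫ alt 𝟙 N r) ▷ M)`
`: U ⊗ N ⟶ W ⊗ M`. So `A = -∑_j (-1)^(r+j) • A_j`. -/
def S_CR1 : Prop := ∀ (C : Type u) [Category.{v} C] [Preadditive C] [HasZeroObject C]
  [HasShift C ℤ] [∀ n : ℤ, (shiftFunctor C n).Additive] [Pretriangulated C] [IsTriangulated C]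
  [MonoidalCategory C] [SymmetricCategory C] [TensorTriangulated C] [MonoidalPreadditive C]
  (E : Type w) [Field E] (R : Realisation C E), Fth R →
  ∀ (M N : C), R.Deg M 0 → R.Deg N 0 → ∀ f : M ⟶ N, f ≠ 0 →
  ∃ (U W : C) (g : U ⟶ W) (A : U ⊗ N ⟶ W ⊗ M), R.Deg U 0 ∧ R.Deg W 0 ∧ g ≠ 0 ∧
    (U ◁ f) ≫ A ≫ (W ◁ f) = (g ▷ M) ≫ (W ◁ f)

/-- CR2 (60-120 lines, only a symmetric monoidal category with right duals). Take `F = Wᘁ ⊗ U`,
`v = (Wᘁ ◁ g) ≫ ε_ W Wᘁ` (not zero: `g` is recovered from `v` by the adjunction, compare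
`tensorLeftHomEquiv` / `nm_recover`), and `b : N ⊗ (Wᘁ ⊗ U) ⟶ M` the composition of a symmetry
`N ⊗ (Wᘁ ⊗ U) ≅ Wᘁ ⊗ (U ⊗ N)`, natural in `N`, with `Wᘁ ◁ A`, the associator and `ε_ W Wᘁ ▷ M`. -/
def S_CR2 : Prop := ∀ (C : Type u) [Category.{v} C] [Preadditive C] [MonoidalCategory C]
  [SymmetricCategory C] [MonoidalPreadditive C] [RightRigidCategory C] (M N U W : C) (f : M ⟶ N)
  (g : U ⟶ W) (A : U ⊗ N ⟶ W ⊗ M), g ≠ 0 → (U ◁ f) ≫ A ≫ (W ◁ f) = (g ▷ M) ≫ (W ◁ f) →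
  ∃ (v : Wᘁ ⊗ U ⟶ 𝟙_ C) (b : N ⊗ (Wᘁ ⊗ U) ⟶ M), v ≠ 0 ∧
    (f ▷ (Wᘁ ⊗ U)) ≫ b ≫ f = (M ◁ v) ≫ (ρ_ M).hom ≫ f

/-- IMG (80-150 lines). Images exist. If `f = 0`, take `I = 0`. Otherwise CR1, CR2 give `F` in degree
zero, `v ≠ 0` and `b`. Then `H(v) ≠ 0` (`Fth.zero`), `H(𝟙)` has dimension one, so `H(v)` is an
epimorphism and the third vertex `P` of a triangle `v, q, w` has `R.Deg P (-1)`. NIL gives
`qp q n = 0`. Put `a = (f ▷ F) ≫ b`; `(a ▷ F) ≫ a = ((M ◁ v ≫ ρ) ▷ F) ≫ a` since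
`a ≫ f = (M ◁ v) ≫ ρ ≫ f`. DES gives `I, p, s`. (i) `R.Deg I 0`: for `i ≠ 0`, `H(I⟦i⟧)` is a quotient of
`H((I ⊗ F)⟦i⟧)` by `I ◁ v` [choose `e` in `H(F)` with image `1`; `y` in `H(I⟦i⟧)` is the image of
`μ(y ⊗ e)`] and the map `(I ◁ v) ≫ ρ = s ≫ p` factors through `M`, in degree zero. (ii) `H(p)` is
surjective for the same reason. (iii) The third vertex `K` of `K ⟶ M ⟶ I` is in degree zero; if
`H(p) x = 0` then, with `e` as above, `H(a)(μ(x ⊗ e)) = H(s)(μ(H(p) x ⊗ e)) = 0` and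
`H(f) x = H(a ≫ f)(μ(x ⊗ e)) = 0`. So `H` vanishes on `K ⟶ M ⟶ N`, this is zero by `Fth.zero`, and
`f = p ≫ j`. (iv) `H(j)` is injective: if `H(f) x = 0` then `H(a)(μ(x ⊗ e)) = H(b)(μ(H(f) x ⊗ e)) = 0`
and `H(p) x = H(s ≫ p)(μ(H(p) x ⊗ e)) = H(a ≫ p)(μ(x ⊗ e)) = 0`. -/
def S_IMG : Prop := ∀ (C : Type u) [Category.{v} C] [Preadditive C] [HasZeroObject C]
  [HasShift C ℤ] [∀ n : ℤ, (shiftFunctor C n).Additive] [Pretriangulated C] [IsTriangulated C]
  [MonoidalCategory C] [SymmetricCategory C] [TensorTriangulated C] [MonoidalPreadditive C]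
  [RightRigidCategory C] [IsIdempotentComplete C] (E : Type w) [Field E] [CharZero E]
  (R : Realisation C E), (∀ X : C, R.Deg X 0 → R.Deg (Xᘁ) 0) → Fth R → HasIm R

/-- T1 (150-250 lines). Extension of a filtered object by an object in one degree `c`, `a < c ≤ b`.
Only triangulated arguments (no tensor product). Induction on the filtration `X' ⟶ X ⟶ H_b` of `X`.
If `c = b`: the octahedral axiom for `X' ⟶ X ⟶ Y` gives `X' ⟶ Y ⟶ H'` with `H_b ⟶ H' ⟶ H`, so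
`R.Deg H' b`. If `c < b`, let `u : H⟦-1⟧ ⟶ X` be the connecting map (in degree `c + 1`).
Case `c + 1 < b`: `u ≫ (X ⟶ H_b) = 0` (shifted form of `Fth.neg`), so `u` lifts to `X'`, with cone
`Y'`, `Fil a (b-1) Y'` by induction, and (octahedral) `Y' ⟶ Y ⟶ H_b`. Case `c + 1 = b`: let
`f : H⟦-1⟧ ⟶ X ⟶ H_b` and `f = p ≫ j`, `I` its image (`HasIm`, shifted to degree `b`), `K` the fibre of
`p`, in degree `b`. `K ⟶ H⟦-1⟧ ⟶ X ⟶ H_b` is zero, so `K ⟶ X` lifts to `X'`, with cone `Y'`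
(`X' ⟶ Y' ⟶ K⟦1⟧`, `K⟦1⟧` in degree `b - 1`), `Fil a (b-1) Y'` by induction. Let `Y₁` be the cone of
`K ⟶ X`. Octahedral for `K ⟶ X' ⟶ X`: `Y' ⟶ Y₁ ⟶ H_b`. Octahedral for `K ⟶ H⟦-1⟧ ⟶ X`: `I ⟶ Y₁ ⟶ Y`.
The composition `I ⟶ Y₁ ⟶ H_b` becomes `f = p ≫ j` after `p`, so it has the same realisation as `j`, a
monomorphism; its cone `Q` is in degree `b`. Octahedral for `Y' ⟶ Y₁ ⟶ Y`: the cone of `Y' ⟶ Y` is
the cone of `I ⟶ H_b`, so `Y' ⟶ Y ⟶ Q` and `Fil a b Y`. -/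
def S_T1 : Prop := ∀ (C : Type u) [Category.{v} C] [Preadditive C] [HasZeroObject C]
  [HasShift C ℤ] [∀ n : ℤ, (shiftFunctor C n).Additive] [Pretriangulated C] [IsTriangulated C]
  [MonoidalCategory C] [SymmetricCategory C] [TensorTriangulated C] [MonoidalPreadditive C]
  (E : Type w) [Field E] (R : Realisation C E), Fth R → HasIm R →
  ∀ (a b c : ℤ) (X Y H : C) (f : X ⟶ Y) (g : Y ⟶ H) (h : H ⟶ X⟦(1 : ℤ)⟧),
  Triangle.mk f g h ∈ distTriang C → Fil R a b X → a < c → c ≤ b → R.Deg H c → Fil R a b Y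

/-- T2 (80-150 lines). Every object is a retract of a filtered object. Let `P X` be: `X` is a
retract of some `X'` with `Fil R a b X'` for some `a ≤ b`. To see that `P` is thick: `Fil R a b X`
can be enlarged to `a' ≤ a`, `b ≤ b'` (add zero pieces, a zero object is in every degree), is stable
under shift and isomorphism, and by T1 and induction on the filtration of the third vertex
(octahedral axiom) filtered objects are closed under extensions. The retracts of filtered objects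
are closed under extensions: let `X ⟶ Y ⟶ Z ⟶ X⟦1⟧` be distinguished with third map `h`, `X`, `Z`
retracts of filtered `X'`, `Z'` by `iX, rX, iZ, rZ`. Let `X' ⟶ Y' ⟶ Z' ⟶ X'⟦1⟧` be distinguished with
third map `rZ ≫ h ≫ iX⟦1⟧'`. Then `(iX, iZ)` and `(rX, rZ)` extend to morphisms of triangles `φ`, `ψ`,
and `φ ≫ ψ : Y ⟶ Y` is an isomorphism (`isIso₂_of_isIso₁₃`), so `Y` is a retract of `Y'`.
Then apply `Gen`. -/
def S_T2 : Prop := ∀ (C : Type u) [Category.{v} C] [Preadditive C] [HasZeroObject C]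
  [HasShift C ℤ] [∀ n : ℤ, (shiftFunctor C n).Additive] [Pretriangulated C] [IsTriangulated C]
  [MonoidalCategory C] [SymmetricCategory C] [TensorTriangulated C] [MonoidalPreadditive C]
  (E : Type w) [Field E] (R : Realisation C E), Fth R → HasIm R → Gen R →
  ∀ X : C, ∃ (a b : ℤ) (X' : C) (i : X ⟶ X') (r : X' ⟶ X), i ≫ r = 𝟙 X ∧ Fil R a b X'

/-- T3 (100-160 lines). Truncations and conservativity. Let `X` be a retract of `X'` (`i ≫ r = 𝟙`),
`Fil R a b X'`, `e = r ≫ i`. Enlarge so that `a ≤ 0 ≤ b`. The filtration gives a triangle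
`A ⟶ X' ⟶ B` with `Fil a 0 A`, `Fil 0 b B`; `Hom(A, B) = 0 = Hom(A, B⟦-1⟧)` by `Fth.neg` (all maps from
an object in degree `i` to an object in degree `j > i` vanish). So `e` lifts uniquely to
`e' : A ⟶ A`, idempotent, which splits (`IsIdempotentComplete`): `A' ⟶ A ⟶ A'`. `A' ⟶ A ⟶ X' ⟶ X`
looks like a truncation: on `H^i`, `i ≤ 0`, `A ⟶ X'` is an isomorphism compatible with `e'`, `e`, and
retracts of isomorphisms are isomorphisms; `H^i(A') = 0` for `i > 0`. Conservative: if all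
`H^i(X) = 0` then `e` acts as zero on all `H^i(X')`. Show by induction on the filtration that an
idempotent `e` of a filtered object with `H^i(e) = 0` for all `i` is zero: it induces `e_b` on `H_b`
(as `Hom(X'', H_b) = 0` for `Fil a (b-1) X''`), `H(e_b) = 0` since `H^b(X') ⟶ H^b(H_b)` is an
isomorphism, so `e_b = 0` by `Fth.zero` (shifted), `e` factors through the previous step `X''`, and
the induced idempotent of `X''` is zero by induction, so `e = e ≫ e ≫ e = 0`. Hence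
`𝟙 X = i ≫ e ≫ r = 0`. -/
def S_T3 : Prop := ∀ (C : Type u) [Category.{v} C] [Preadditive C] [HasZeroObject C]
  [HasShift C ℤ] [∀ n : ℤ, (shiftFunctor C n).Additive] [Pretriangulated C] [IsTriangulated C]
  [MonoidalCategory C] [SymmetricCategory C] [TensorTriangulated C] [MonoidalPreadditive C]
  [IsIdempotentComplete C] (E : Type w) [Field E] (R : Realisation C E), Fth R →
  (∀ X : C, ∃ (a b : ℤ) (X' : C) (i : X ⟶ X') (r : X' ⟶ X), i ≫ r = 𝟙 X ∧ Fil R a b X') →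
  Conservative R ∧ ∀ X : C, ∃ (A : C) (f : A ⟶ X), LooksLikeTruncation R f

/-- CNV (60-120 lines). The converse. With a motivic t-structure `R` is conservative and t-exact
(`truncations_of_motivic`), an object in degree zero for `R` is in the heart (`isLE_of_H`,
`isGE_of_H`, `CE.conc`), `faithful_heart` gives `Inj.zero`, and `Inj.neg` holds since
`Hom(D^{≤0}, D^{≥1}) = 0`. `Gen`: every object is bounded (`bounded_of_H`); by induction on the
length of the interval in which it has cohomology and the truncation triangles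
(`t.exists_triangle`), it is in each thick `P` which contains the shifts of the heart. -/
def S_CNV : Prop := ∀ (C : Type u) [Category.{v} C] [Preadditive C] [HasZeroObject C]
  [HasShift C ℤ] [∀ n : ℤ, (shiftFunctor C n).Additive] [Pretriangulated C] [IsTriangulated C]
  [MonoidalCategory C] [SymmetricCategory C] [TensorTriangulated C] [MonoidalPreadditive C]
  [RightRigidCategory C], (∀ e : 𝟙_ C ⟶ 𝟙_ C, e ≫ e = e → e = 0 ∨ e = 𝟙 _) →
  ∀ (E : Type w) [Field E] (R : Realisation C E) (t : TStructure C),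
  IsMotivic t (fun _ : Unit => R) → Inj R ∧ Gen R

end Run7.h985.TC
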