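import Pool.Agent.Run7.h985.TC.Stm

/-!
# Interface, second part: decompositions of the generators
-/

set_option autoImplicit false

open CategoryTheory Limits MonoidalCategory Pretriangulated Triangulated

namespace Run7.h985.TC

open Pool.Agent.Y116.MT Pool.Agent.V1178.MT Run7.h822.MT

universe v u w

section

variable {C : Type u} [Category.{v} C] [Preadditive C] [HasZeroObject C] [HasShift C ℤ]
  [∀ n : ℤ, (shiftFunctor C n).Additive] [Pretriangulated C] [MonoidalCategory C]
  [SymmetricCategory C] [TensorTriangulated C]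

/-- `X` is a finite direct sum of objects with cohomology in one degree only. -/
inductive IsSum {E : Type w} [Field E] (R : Realisation C E) : C → Prop
  | one {X : C} (q : ℤ) (hX : R.Deg X q) : IsSum R X
  | sum {A B X : C} (iA : A ⟶ X) (rA : X ⟶ A) (iB : B ⟶ X) (rB : X ⟶ B)
      (hA : iA ≫ rA = 𝟙 A) (hB : iB ≫ rB = 𝟙 B) (h : rA ≫ iA + rB ≫ iB = 𝟙 X)
      (sA : IsSum R A) (sB : IsSum R B) : IsSum R X

end

/-- CK1 (40-60 lines). A thick subcategory with the objects in degree zero contains all objects in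
one degree (shift), and all their direct sums: for `A, B, X` as in `IsSum.sum`, `iA ≫ rB = 0`; the
third vertex `Z` of a triangle on `iA` is isomorphic to `B` (`iB ≫ g` and the factorisation of `rB`
through `g : X ⟶ Z` are inverse to each other, `g` is epi because `iA` is a split mono), so `X` is an
extension. -/
def S_CK1 : Prop := ∀ (C : Type u) [Category.{v} C] [Preadditive C] [HasZeroObject C]
  [HasShift C ℤ] [∀ n : ℤ, (shiftFunctor C n).Additive] [Pretriangulated C] [IsTriangulated C]
  [MonoidalCategory C] [SymmetricCategory C] [TensorTriangulated C] [MonoidalPreadditive C]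
  (E : Type w) [Field E] (R : Realisation C E) (P : ObjectProperty C), IsThick P →
  (∀ X, R.Deg X 0 → P X) → ∀ X, IsSum R X → P X

/-- CK2 (150-250 lines). Under a motivic t-structure an object with Lefschetz isomorphisms is a
direct sum. `R` is conservative and `t`-exact (`truncations_of_motivic`; `CE t R`; use `Conc`, `pc`,
`pc_conc`, `isIso_pc`, `isIso_of_conc`, `iso_le`, `iso_ge` of Run7/h822/MT/Piece.lean and the first
lines of `good_of_lefschetz` in Run7/h822/MT/Main.lean). Induction on `K`: `X` has cohomology only in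
the degrees `[e - K, e + K]` (bounded by `R.bounded`). If `K = 0`, `X` is in degree `e`. Let `K > 0`,
`iA : A ⟶ X` the truncation in degrees `≤ e - K` (`A` in degree `e - K`), `pB : X ⟶ B` the truncation
in degrees `≥ e + K` (`B` in degree `e + K`), `L = L_K : X ⟶ X ⊗ T^K`. Then
`A ⟶ X ⟶ X ⊗ T^K ⟶ B ⊗ T^K` is an isomorphism (both sides are in degree `e - K`, it is an
isomorphism on `H^(e-K)`), so `A` is a direct summand of `X` (`iA`, `rA`). Similarly for `B`: tensor
with the inverse of `T^K`: `B ≅ A ⊗ T^-K ⟶ X ⊗ T^-K ⟶ (L ⊗ T^-K) ⟶ X ⟶ B` is an isomorphism, so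
there is `sB : B ⟶ X` with `sB ≫ pB = 𝟙`. `iA ≫ pB = 0`. Put `iB = sB ≫ (𝟙 - rA ≫ iA)`,
`e₂ = 𝟙 - rA ≫ iA - pB ≫ iB`, an idempotent with `X = A ⊕ B ⊕ X₂`, `X₂` the image of `e₂`
(`IsIdempotentComplete`). `X₂` has cohomology only in `[e - K + 1, e + K - 1]`, and for `k < K` the map
`X₂ ⟶ X ⟶ X ⊗ T^k ⟶ X₂ ⊗ T^k` is an isomorphism on `H^(e-k)`; for `k ≥ K` both sides vanish in
degree `e - k` (any map will do). -/
def S_CK2 : Prop := ∀ (C : Type u) [Category.{v} C] [Preadditive C] [HasZeroObject C]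
  [HasShift C ℤ] [∀ n : ℤ, (shiftFunctor C n).Additive] [Pretriangulated C] [IsTriangulated C]
  [MonoidalCategory C] [SymmetricCategory C] [TensorTriangulated C] [MonoidalPreadditive C]
  [RightRigidCategory C] [IsIdempotentComplete C],
  (∀ e : 𝟙_ C ⟶ 𝟙_ C, e ≫ e = e → e = 0 ∨ e = 𝟙 _) →
  ∀ (E : Type w) [Field E] (R : Realisation C E) (t : TStructure C),
  IsMotivic t (fun _ : Unit => R) → ∀ (T T' : C), Nonempty (T ⊗ T' ≅ 𝟙_ C) → R.Deg T (-2) →
  ∀ (X : C) (e : ℤ), (∀ k : ℕ, ∃ L : X ⟶ twist T X k, IsIso (R.H.map (L⟦e - k⟧'))) → IsSum R X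

end Run7.h985.TC
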